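import Mathlib

/-!
# Counting injective homomorphisms with a prescribed root
-/

set_option autoImplicit false

open Finset

namespace Pool.Agent.Q274.FI

open scoped Classical

variable {V W : Type} [Fintype V] [Fintype W]

/-- The injective homomorphisms from `F` to `G` that send `r` to `v`. -/
noncomputable def Emb (F : SimpleGraph V) (G : SimpleGraph W) (r : V) (v : W) : Finset (V → W) :=
  univ.filter fun φ => φ r = v ∧ Function.Injective φ ∧ ∀ a b, F.Adj a b → G.Adj (φ a) (φ b)

lemma mem_Emb {F : SimpleGraph V} {G : SimpleGraph W} {r : V} {v : W} {φ : V → W} :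
    φ ∈ Emb F G r v ↔
      φ r = v ∧ Function.Injective φ ∧ ∀ a b, F.Adj a b → G.Adj (φ a) (φ b) := by
  simp [Emb]

/-- Upper bound for a family of functions that are determined by their values on `T`. -/
lemma card_le_of_det (A : Finset (V → W)) (T : Finset V)
    (h : ∀ φ ∈ A, ∀ φ' ∈ A, (∀ a ∈ T, φ a = φ' a) → φ = φ') :
    A.card ≤ Fintype.card W ^ T.card := by
  have h1 := Finset.card_le_card_of_injOn (s := A) (t := (univ : Finset (T → W)))
    (fun φ a => φ a) (by simp) (by
      intro φ hφ φ' hφ' he
      exact h φ hφ φ' hφ' fun a ha => congrFun he ⟨a, ha⟩)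
  simpa using h1

/-- Functions with prescribed values on a set. -/
lemma card_le_fixed (A : Finset (V → W)) (S : Finset V) (g : V → W)
    (h : ∀ φ ∈ A, ∀ a ∈ S, φ a = g a) :
    A.card ≤ Fintype.card W ^ (Fintype.card V - S.card) := by
  rw [← Finset.card_compl]
  refine card_le_of_det A _ ?_
  intro φ hφ φ' hφ' he
  funext a
  by_cases ha : a ∈ S
  · rw [h φ hφ a ha, h φ' hφ' a ha]
  · exact he a (by simpa using ha)

/-- Lower bound: injective extensions of an injective map on `S` by values in `K`. -/
lemma le_card_ext (S : Finset V) (g : V → W) (hg : Set.InjOn g S) (K : Finset W)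
    (hK : ∀ a ∈ S, g a ∉ K) (A : Finset (V → W))
    (hA : ∀ φ : V → W, Function.Injective φ → (∀ a ∈ S, φ a = g a) →
      (∀ a, a ∉ S → φ a ∈ K) → φ ∈ A) :
    K.card.descFactorial (Fintype.card V - S.card) ≤ A.card := by
  have h1 : Fintype.card ({a // a ∉ S} ↪ {w // w ∈ K}) =
      K.card.descFactorial (Fintype.card V - S.card) := by
    rw [Fintype.card_embedding_eq]
    congr 1
    · simp
    · rw [Fintype.card_subtype_compl]; simp
  rw [← h1, ← Fintype.card_coe A]
  have key : ∀ e : ({a // a ∉ S} ↪ {w // w ∈ K}),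
      (fun a => if h : a ∈ S then g a else (e ⟨a, h⟩ : W)) ∈ A := by
    intro e
    apply hA
    · intro a b hab
      by_cases ha : a ∈ S <;> by_cases hb : b ∈ S
      · simp only [ha, hb, dif_pos] at hab
        exact hg ha hb hab
      · simp only [ha, hb, dif_pos, not_false_eq_true, dif_neg] at hab
        exact absurd (hab ▸ (e ⟨b, hb⟩).2) (hK a ha)
      · simp only [ha, hb, dif_pos, not_false_eq_true, dif_neg] at hab
        exact absurd (hab ▸ (e ⟨a, ha⟩).2) (hK b hb)
      · simp only [ha, hb, not_false_eq_true, dif_neg] at hab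
        have := e.injective (Subtype.ext hab)
        simpa using this
    · intro a ha; simp [ha]
    · intro a ha; simp [ha]
  refine Fintype.card_le_of_injective (fun e => (⟨_, key e⟩ : A)) ?_
  intro e e' he
  ext ⟨a, ha⟩
  have h2 := congrFun (Subtype.ext_iff.1 he) a
  simpa [ha] using h2

end Pool.Agent.Q274.FI
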