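import Pool.Agent.Q274.FI.Count

/-!
# Symmetric blocks and their reflection
-/

set_option autoImplicit false

open Finset

namespace Pool.Agent.Q274.FI

open scoped Classical

variable {V W : Type} [Fintype V] [Fintype W]

/-- A symmetric block of half length `R` with apex `y`: the `(R-1)`-st power of a path on `2R`
vertices, all joined to `y`, without other edges to the rest. -/
structure SBlock (H : SimpleGraph W) (y : W) (R : ℕ) (ι : Fin (2 * R) → W) : Prop where
  inj : Function.Injective ι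
  ny : ∀ x, ι x ≠ y
  adj : ∀ x x', H.Adj (ι x) (ι x') ↔ x ≠ x' ∧ (x : ℕ) < x' + R ∧ (x' : ℕ) < x + R
  out : ∀ x w, H.Adj (ι x) w → w = y ∨ ∃ x', ι x' = w
  top : ∀ x, H.Adj (ι x) y

/-- The reflection of the block. -/
noncomputable def refl {R : ℕ} (ι : Fin (2 * R) → W) (w : W) : W :=
  if h : ∃ x, ι x = w then ι (Fin.rev h.choose) else w

/-- The distance of a block vertex from the nearer end. -/
noncomputable def rep {R : ℕ} (ι : Fin (2 * R) → W) (w : W) : ℕ :=
  if h : ∃ x, ι x = w then min (h.choose : ℕ) (2 * R - 1 - h.choose) else 0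

section

variable {H : SimpleGraph W} {y : W} {R : ℕ} {ι : Fin (2 * R) → W}

lemma refl_ι (hι : Function.Injective ι) (x : Fin (2 * R)) : refl ι (ι x) = ι x.rev := by
  have h : ∃ x', ι x' = ι x := ⟨x, rfl⟩
  have h2 : h.choose = x := hι h.choose_spec
  unfold refl
  rw [dif_pos h, h2]

lemma rep_ι (hι : Function.Injective ι) (x : Fin (2 * R)) :
    rep ι (ι x) = min (x : ℕ) (2 * R - 1 - x) := by
  have h : ∃ x', ι x' = ι x := ⟨x, rfl⟩
  have h2 : h.choose = x := hι h.choose_spec
  unfold rep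
  rw [dif_pos h, h2]

lemma refl_out {w : W} (h : ¬ ∃ x, ι x = w) : refl ι w = w := by
  unfold refl
  rw [dif_neg h]

lemma refl_refl (hι : Function.Injective ι) (w : W) : refl ι (refl ι w) = w := by
  by_cases h : ∃ x, ι x = w
  · obtain ⟨x, rfl⟩ := h
    rw [refl_ι hι, refl_ι hι, Fin.rev_rev]
  · rw [refl_out h, refl_out h]

lemma refl_injective (hι : Function.Injective ι) : Function.Injective (refl ι) :=
  (show Function.Involutive (refl ι) from refl_refl hι).injective

lemma block_refl (hι : Function.Injective ι) (w : W) : (∃ x, ι x = refl ι w) ↔ ∃ x, ι x = w := by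
  by_cases h : ∃ x, ι x = w
  · obtain ⟨x, rfl⟩ := h
    simp only [refl_ι hι]
    exact ⟨fun _ => ⟨x, rfl⟩, fun _ => ⟨x.rev, rfl⟩⟩
  · rw [refl_out h]

lemma rep_refl (hι : Function.Injective ι) (w : W) : rep ι (refl ι w) = rep ι w := by
  by_cases h : ∃ x, ι x = w
  · obtain ⟨x, rfl⟩ := h
    rw [refl_ι hι, rep_ι hι, rep_ι hι]
    have := x.2
    have h2 := Fin.val_rev x
    omega
  · rw [refl_out h]

lemma rep_eq (hι : Function.Injective ι) {x x' : Fin (2 * R)}
    (h : rep ι (ι x) = rep ι (ι x')) : x' = x ∨ x' = x.rev := by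
  rw [rep_ι hι, rep_ι hι] at h
  have h1 := x.2
  have h2 := x'.2
  have h3 := Fin.val_rev x
  by_cases h4 : (x' : ℕ) = x
  · exact Or.inl (Fin.ext h4)
  · right
    apply Fin.ext
    omega

lemma SBlock.refl_adj' (hB : SBlock H y R ι) {a b : W} (h : H.Adj a b) :
    H.Adj (refl ι a) (refl ι b) := by
  have hy : refl ι y = y := refl_out (by rintro ⟨x, hx⟩; exact hB.ny x hx)
  by_cases ha : ∃ x, ι x = a
  · obtain ⟨x, rfl⟩ := ha
    rcases hB.out x b h with rfl | ⟨x', rfl⟩
    · rw [hy, refl_ι hB.inj]; exact hB.top _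
    · rw [refl_ι hB.inj, refl_ι hB.inj, hB.adj]
      rw [hB.adj] at h
      have h1 := x.2
      have h2 := x'.2
      have h3 := Fin.val_rev x
      have h4 := Fin.val_rev x'
      refine ⟨fun he => h.1 ?_, ?_, ?_⟩
      · exact Fin.rev_injective he
      · omega
      · omega
  · by_cases hb : ∃ x, ι x = b
    · obtain ⟨x, rfl⟩ := hb
      rcases hB.out x a h.symm with rfl | hx
      · rw [hy, refl_ι hB.inj]; exact (hB.top _).symm
      · exact absurd hx ha
    · rw [refl_out ha, refl_out hb]; exact h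

lemma SBlock.refl_adj (hB : SBlock H y R ι) (a b : W) :
    H.Adj (refl ι a) (refl ι b) ↔ H.Adj a b := by
  refine ⟨fun h => ?_, hB.refl_adj'⟩
  have := hB.refl_adj' h
  rwa [refl_refl hB.inj, refl_refl hB.inj] at this

/-- Adjacency of block vertices in terms of sides and distances from the ends. -/
lemma SBlock.adj_rep (hB : SBlock H y R ι) {x x' : Fin (2 * R)}
    (hne : rep ι (ι x) ≠ rep ι (ι x'))
    (h : R ≤ rep ι (ι x) + rep ι (ι x')) : H.Adj (ι x) (ι x') := by
  rw [hB.adj]
  rw [rep_ι hB.inj, rep_ι hB.inj] at hne h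
  have h1 := x.2
  have h2 := x'.2
  refine ⟨fun he => hne (by rw [he]), ?_, ?_⟩ <;> omega

/-- The reflection acts on rooted injective homomorphisms. -/
lemma SBlock.card_refl (hB : SBlock H y R ι) (F : SimpleGraph V) (r : V) (v : W)
    (P Q : (V → W) → Prop) (h : ∀ φ, P φ ↔ Q fun a => refl ι (φ a)) :
    ((Emb F H r v).filter P).card = ((Emb F H r (refl ι v)).filter Q).card := by
  refine Finset.card_bij' (fun φ _ a => refl ι (φ a)) (fun φ _ a => refl ι (φ a)) ?_ ?_ ?_ ?_
  · intro φ hφ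
    rw [mem_filter, mem_Emb] at hφ ⊢
    refine ⟨⟨by rw [hφ.1.1], (refl_injective hB.inj).comp hφ.1.2.1, fun a b hab => ?_⟩,
      (h φ).1 hφ.2⟩
    exact hB.refl_adj' (hφ.1.2.2 a b hab)
  · intro φ hφ
    rw [mem_filter, mem_Emb] at hφ ⊢
    refine ⟨⟨by rw [hφ.1.1, refl_refl hB.inj], (refl_injective hB.inj).comp hφ.1.2.1,
      fun a b hab => ?_⟩, ?_⟩
    · exact hB.refl_adj' (hφ.1.2.2 a b hab)
    · rw [h]
      simpa only [refl_refl hB.inj] using hφ.2
  · intro φ _
    funext a
    exact refl_refl hB.inj _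
  · intro φ _
    funext a
    exact refl_refl hB.inj _

/-- The vertices of the block at the positions `a + 1, ..., a + R - 1` or so. -/
lemma exists_interval (hι : Function.Injective ι) (a k : ℕ) (h : a + k ≤ 2 * R) :
    ∃ K : Finset W, K.card = k ∧
      ∀ w ∈ K, ∃ x : Fin (2 * R), ι x = w ∧ a ≤ (x : ℕ) ∧ (x : ℕ) < a + k := by
  have hlt : ∀ j : Fin k, a + (j : ℕ) < 2 * R := fun j => by have := j.2; omega
  refine ⟨(univ : Finset (Fin k)).image (fun j : Fin k => ι ⟨a + (j : ℕ), hlt j⟩), ?_, ?_⟩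
  · rw [card_image_of_injective, card_univ, Fintype.card_fin]
    intro i j hij
    have h1 := hι hij
    have h2 := congrArg Fin.val h1
    simp only at h2
    exact Fin.ext (by omega)
  · intro w hw
    rw [mem_image] at hw
    obtain ⟨j, _, rfl⟩ := hw
    exact ⟨_, rfl, by simp, by simp⟩

end

end Pool.Agent.Q274.FI
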