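import Pool.Agent.Q274.FI.Flip

/-!
# The numbers of rooted homomorphisms at the vertices of a block
-/

set_option autoImplicit false

open Finset

namespace Pool.Agent.Q274.FI

open scoped Classical

variable {V W : Type} [Fintype V] [Fintype W]

variable {H : SimpleGraph W} {y : W} {R : ℕ} {ι : Fin (2 * R) → W}

lemma SBlock.Use_cmp (hB : SBlock H y R ι) (F : SimpleGraph V) (r : V)
    (x x₀ xl : Fin (2 * R)) (hx0 : (x : ℕ) ≠ 0) (hxR : (x : ℕ) < R) (h0 : (x₀ : ℕ) = 0)
    (hxl : (xl : ℕ) = 2 * R - 1) :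
    Fintype.card W * (Use F H r (ι x) (ι xl) y).card ≤
      Fintype.card W * (Use F H r (ι x) (ι x₀) y).card +
        Fintype.card V ^ 4 * Fintype.card W ^ (Fintype.card V - 3) := by
  rw [card_Use_eq, card_Use_eq, Finset.mul_sum, Finset.mul_sum]
  calc ∑ t, Fintype.card W * (UseAt F H r (ι x) (ι xl) y t).card
      ≤ ∑ t, (Fintype.card W * (UseAt F H r (ι x) (ι x₀) y t).card +
          Fintype.card V ^ 3 * Fintype.card W ^ (Fintype.card V - 3)) := by
        refine Finset.sum_le_sum fun t _ => ?_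
        have h1 := hB.card_UseAt_le F r x x₀ xl hxR h0 hxl t
        have h2 := hB.card_Mir_le F r x xl hx0 hxR hxl t
        have h3 := Nat.mul_le_mul_left (Fintype.card W) h1
        rw [Nat.mul_add] at h3
        omega
    _ = _ := by
        rw [Finset.sum_add_distrib, Finset.sum_const, card_univ, smul_eq_mul]
        ring

lemma SBlock.Use_cmp_good (hB : SBlock H y R ι) (F : SimpleGraph V) {r t₀ s₀ : V}
    (hrt : F.Adj r t₀) (hts : F.Adj t₀ s₀) (hsr : s₀ ≠ r)
    (x x₀ xl : Fin (2 * R)) (hx0 : (x : ℕ) ≠ 0) (hxR : (x : ℕ) < R) (h0 : (x₀ : ℕ) = 0)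
    (hxl : (xl : ℕ) = 2 * R - 1) :
    Fintype.card W * (Use F H r (ι x) (ι xl) y).card +
        Fintype.card W * (R - 2).descFactorial (Fintype.card V - 3) ≤
      Fintype.card W * (Use F H r (ι x) (ι x₀) y).card +
        Fintype.card V ^ 4 * Fintype.card W ^ (Fintype.card V - 3) := by
  have hι := hB.inj
  -- the terms of `t₀`
  have hempty : (UseAt F H r (ι x) (ι xl) y t₀).card = 0 := by
    rw [Finset.card_eq_zero, Finset.eq_empty_iff_forall_notMem]
    intro φ hφ
    rw [UseAt, mem_filter, mem_Emb] at hφ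
    obtain ⟨⟨e1, _, e3⟩, e4, _⟩ := hφ
    have := e3 r t₀ hrt
    rw [e1, e4, hB.adj] at this
    omega
  have hbig : (R - 2).descFactorial (Fintype.card V - 3) ≤
      (UseAt F H r (ι x) (ι x₀) y t₀).card := by
    obtain ⟨K, hK1, hK2⟩ := exists_interval (W := W) hι 1 (R - 1) (by omega)
    have hne1 : ι x ≠ ι x₀ := fun h => by have := congrArg Fin.val (hι h); omega
    have := le_card_clique F H r {r, t₀, s₀} (by simp)
      (fun a => if a = r then ι x else if a = t₀ then ι x₀ else y)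
      (injOn_three hrt.ne' hne1 (hB.ny x) (hB.ny x₀)) (K.erase (ι x)) (by
      intro a ha hmem
      rw [mem_erase] at hmem
      obtain ⟨hm1, hm2⟩ := hmem
      obtain ⟨z, hz1, hz2, hz3⟩ := hK2 _ hm2
      split_ifs at hm1 hz1 with h h'
      · exact hm1 rfl
      · have := congrArg Fin.val (hι hz1); omega
      · exact hB.ny z hz1)
      (fun w => w = y ∨ ∃ z : Fin (2 * R), ι z = w ∧ (z : ℕ) < R) (by
      intro a ha
      split_ifs
      · exact Or.inr ⟨x, rfl, by omega⟩
      · exact Or.inr ⟨x₀, rfl, by omega⟩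
      · exact Or.inl rfl) (by
      intro w hw
      obtain ⟨z, hz1, hz2, hz3⟩ := hK2 w (mem_of_mem_erase hw)
      exact Or.inr ⟨z, hz1, by omega⟩) (by
      rintro p q (rfl | ⟨z, rfl, hz⟩) (rfl | ⟨z', rfl, hz'⟩) hne
      · exact absurd rfl hne
      · exact (hB.top _).symm
      · exact hB.top _
      · rw [hB.adj]
        refine ⟨fun h => hne (by rw [h]), ?_, ?_⟩ <;> omega)
    rw [card_eq_three.2 ⟨r, t₀, s₀, hrt.ne, hsr.symm, hts.ne, rfl⟩] at this
    have h1 : R - 2 ≤ (K.erase (ι x)).card := by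
      have := Finset.pred_card_le_card_erase (s := K) (a := ι x)
      omega
    refine (Nat.descFactorial_le _ h1).trans (this.trans (card_le_card ?_))
    intro φ hφ
    rw [mem_filter] at hφ
    have h3 := hφ.2 t₀ (by simp)
    have h4 := hφ.2 s₀ (by simp)
    simp only [hrt.ne', if_false, if_true] at h3
    simp only [hsr, hts.ne', if_false] at h4
    simp only [if_true] at hφ
    rw [UseAt, mem_filter]
    exact ⟨hφ.1, h3, s₀, hts, h4⟩
  rw [card_Use_eq, card_Use_eq, Finset.mul_sum, Finset.mul_sum]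
  rw [← Finset.add_sum_erase univ _ (mem_univ t₀),
    ← Finset.add_sum_erase univ (fun t => Fintype.card W * (UseAt F H r (ι x) (ι x₀) y t).card)
      (mem_univ t₀), hempty]
  have h5 : ∑ t ∈ univ.erase t₀, Fintype.card W * (UseAt F H r (ι x) (ι xl) y t).card ≤
      ∑ t ∈ univ.erase t₀, Fintype.card W * (UseAt F H r (ι x) (ι x₀) y t).card +
        Fintype.card V ^ 4 * Fintype.card W ^ (Fintype.card V - 3) := by
    have h7 : ∑ t ∈ univ.erase t₀, Fintype.card W * (UseAt F H r (ι x) (ι xl) y t).card ≤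
        ∑ t ∈ univ.erase t₀, (Fintype.card W * (UseAt F H r (ι x) (ι x₀) y t).card +
          Fintype.card V ^ 3 * Fintype.card W ^ (Fintype.card V - 3)) := by
      refine Finset.sum_le_sum fun t _ => ?_
      have h1 := hB.card_UseAt_le F r x x₀ xl hxR h0 hxl t
      have h2 := hB.card_Mir_le F r x xl hx0 hxR hxl t
      have h3 := Nat.mul_le_mul_left (Fintype.card W) h1
      rw [Nat.mul_add] at h3
      omega
    refine h7.trans ?_
    rw [Finset.sum_add_distrib, Finset.sum_const, smul_eq_mul]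
    refine Nat.add_le_add_left ?_ _
    have h8 : (univ.erase t₀ : Finset V).card *
        (Fintype.card V ^ 3 * Fintype.card W ^ (Fintype.card V - 3)) ≤
        Fintype.card V * (Fintype.card V ^ 3 * Fintype.card W ^ (Fintype.card V - 3)) :=
      Nat.mul_le_mul_right _ (card_le_univ _)
    refine h8.trans (le_of_eq ?_)
    ring
  have h6 := Nat.mul_le_mul_left (Fintype.card W) hbig
  omega

/-- A block with apex `y` where the first vertex is not joined to `y`. -/
structure Block (G : SimpleGraph W) (y : W) (R : ℕ) (ι : Fin (2 * R) → W) : Prop where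
  inj : Function.Injective ι
  ny : ∀ x, ι x ≠ y
  adj : ∀ x x', G.Adj (ι x) (ι x') ↔ x ≠ x' ∧ (x : ℕ) < x' + R ∧ (x' : ℕ) < x + R
  out : ∀ x w, G.Adj (ι x) w → w = y ∨ ∃ x', ι x' = w
  top : ∀ x, G.Adj (ι x) y ↔ (x : ℕ) ≠ 0

omit [Fintype W] in
lemma Block.sblock {G : SimpleGraph W} (hG : Block G y R ι) (x₀ : Fin (2 * R))
    (h0 : (x₀ : ℕ) = 0) : SBlock (G ⊔ SimpleGraph.edge (ι x₀) y) y R ι where
  inj := hG.inj
  ny := hG.ny
  adj := by
    intro x x'
    rw [SimpleGraph.sup_adj, SimpleGraph.edge_adj, hG.adj]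
    constructor
    · rintro (h | ⟨⟨_, h⟩ | ⟨h, _⟩, _⟩)
      · exact h
      · exact absurd h (hG.ny _)
      · exact absurd h (hG.ny _)
    · exact Or.inl
  out := by
    intro x w h
    rw [SimpleGraph.sup_adj, SimpleGraph.edge_adj] at h
    rcases h with h | ⟨⟨_, h⟩ | ⟨h, _⟩, _⟩
    · exact hG.out x w h
    · exact Or.inl h
    · exact absurd h (hG.ny _)
  top := by
    intro x
    rw [SimpleGraph.sup_adj, SimpleGraph.edge_adj, hG.top]
    by_cases h : (x : ℕ) = 0
    · right
      have : x = x₀ := Fin.ext (by omega)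
      exact ⟨Or.inl ⟨by rw [this], rfl⟩, hG.ny _⟩
    · exact Or.inl h

lemma Block.card_add {G : SimpleGraph W} (hG : Block G y R ι) (x₀ : Fin (2 * R))
    (h0 : (x₀ : ℕ) = 0) (F : SimpleGraph V) (r : V) (v : W) :
    (Emb F G r v).card + (Use F (G ⊔ SimpleGraph.edge (ι x₀) y) r v (ι x₀) y).card =
      (Emb F (G ⊔ SimpleGraph.edge (ι x₀) y) r v).card := by
  have h1 : Emb F G r v = Emb F (G ⊔ SimpleGraph.edge (ι x₀) y) r v \
      Use F (G ⊔ SimpleGraph.edge (ι x₀) y) r v (ι x₀) y := by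
    ext φ
    rw [mem_sdiff, Use, mem_filter, mem_Emb, mem_Emb]
    constructor
    · rintro ⟨e1, e2, e3⟩
      refine ⟨⟨e1, e2, fun a b hab => Or.inl (e3 a b hab)⟩, ?_⟩
      rintro ⟨_, t, s, hts, ht, hs⟩
      have := e3 t s hts
      rw [ht, hs, hG.top] at this
      exact this h0
    · rintro ⟨⟨e1, e2, e3⟩, h⟩
      refine ⟨e1, e2, fun a b hab => ?_⟩
      have h3 := e3 a b hab
      rw [SimpleGraph.sup_adj, SimpleGraph.edge_adj] at h3
      rcases h3 with h3 | ⟨⟨h4, h5⟩ | ⟨h4, h5⟩, _⟩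
      · exact h3
      · exact absurd ⟨⟨e1, e2, e3⟩, a, b, hab, h4, h5⟩ h
      · exact absurd ⟨⟨e1, e2, e3⟩, b, a, hab.symm, h5, h4⟩ h
  rw [h1]
  exact card_sdiff_add_card_eq_card (by rw [Use]; exact filter_subset _ _)

/-- The numerical part of the comparison in a block. -/
lemma numeric_block (R : ℕ) (X Z e : Fin (2 * R) → ℕ) (B : ℕ) (x₀ : Fin (2 * R))
    (h0 : (x₀ : ℕ) = 0) (hX : ∀ x, X x + e x = Z x) (hZ : ∀ x, Z x.rev = Z x)
    (hstep : ∀ x x' : Fin (2 * R), (x' : ℕ) = x + 1 → (x' : ℕ) < R → Z x + B < Z x')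
    (he : ∀ x : Fin (2 * R), (x : ℕ) ≠ 0 → e x ≤ B) (he0 : B < e x₀)
    (hcmp : ∀ x : Fin (2 * R), (x : ℕ) ≠ 0 → (x : ℕ) < R → e x.rev ≠ e x) :
    Function.Injective X := by
  have hx0 := x₀.2
  -- monotonicity along the left half
  have hmono : ∀ k : ℕ, ∀ x x' : Fin (2 * R), (x' : ℕ) = x + (k + 1) → (x' : ℕ) < R →
      Z x + B < Z x' := by
    intro k
    induction k with
    | zero => intro x x' h1 h2; exact hstep x x' (by omega) h2
    | succ k ih =>
      intro x x' h1 h2
      have hx' := x'.2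
      have h3 := ih x ⟨x' - 1, by omega⟩ (by simp only; omega) (by simp only; omega)
      have h4 := hstep ⟨x' - 1, by omega⟩ x' (by simp only; omega) h2
      omega
  -- the left representative
  have hleft : ∀ x : Fin (2 * R), ∃ i : Fin (2 * R), (i : ℕ) < R ∧ (x = i ∨ x = i.rev) ∧ Z x = Z i := by
    intro x
    have hx := x.2
    by_cases h : (x : ℕ) < R
    · exact ⟨x, h, Or.inl rfl, rfl⟩
    · refine ⟨x.rev, ?_, Or.inr (Fin.rev_rev x).symm, (hZ x).symm⟩
      have := Fin.val_rev x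
      omega
  have hlow : ∀ x : Fin (2 * R), ∀ i : Fin (2 * R), (i : ℕ) < R → (x = i ∨ x = i.rev) →
      (i : ℕ) ≠ 0 → Z i ≤ X x + B := by
    intro x i hi hxi hi0
    have hx : (x : ℕ) ≠ 0 := by
      have := i.2
      have h2 := Fin.val_rev i
      rcases hxi with rfl | rfl
      · exact hi0
      · omega
    have h1 := he x hx
    have h2 := hX x
    have h3 : Z x = Z i := by
      rcases hxi with rfl | rfl
      · rfl
      · exact hZ i
    omega
  have key : ∀ x x' i i' : Fin (2 * R), (i : ℕ) < R → (i' : ℕ) < R → (x = i ∨ x = i.rev) →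
      (x' = i' ∨ x' = i'.rev) → Z x = Z i → (i : ℕ) < i' → X x < X x' := by
    intro x x' i i' hi hi' hxi hxi' hZi hlt
    have h1 := hmono (i' - i - 1) i i' (by omega) hi'
    have h2 := hlow x' i' hi' hxi' (by omega)
    have h3 := hX x
    omega
  have hpair : ∀ i : Fin (2 * R), (i : ℕ) < R → X i ≠ X i.rev := by
    intro i hi heq
    have h1 := hX i
    have h2 := hX i.rev
    have h3 := hZ i
    have h4 := Fin.val_rev i
    by_cases hi0 : (i : ℕ) = 0
    · have h5 : i = x₀ := Fin.ext (by omega)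
      have h6 := he i.rev (by omega)
      rw [h5] at h1 h2 h3 heq h6
      omega
    · have := hcmp i hi0 hi
      omega
  intro x x' hxx
  obtain ⟨i, hi, hxi, hZi⟩ := hleft x
  obtain ⟨i', hi', hxi', hZi'⟩ := hleft x'
  rcases lt_trichotomy (i : ℕ) i' with h | h | h
  · have := key x x' i i' hi hi' hxi hxi' hZi h; omega
  · have h1 : i = i' := Fin.ext h
    subst h1
    rcases hxi with rfl | rfl <;> rcases hxi' with rfl | rfl
    · rfl
    · exact absurd hxx (hpair _ hi)
    · exact absurd hxx.symm (hpair _ hi)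
    · rfl
  · have := key x' x i' i hi' hi hxi' hxi hZi' h; omega

end Pool.Agent.Q274.FI
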