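import Pool.Agent.Q274.FI.Basic

/-!
# Bounds for families of injective homomorphisms
-/

set_option autoImplicit false

open Finset

namespace Pool.Agent.Q274.FI

open scoped Classical

variable {V W : Type} [Fintype V] [Fintype W]

lemma card_two_le (A : Finset (V → W)) (r : V) (u v : W) (huv : u ≠ v)
    (hA : ∀ φ ∈ A, φ r = u ∧ ∃ t, φ t = v) :
    A.card ≤ Fintype.card V * Fintype.card W ^ (Fintype.card V - 2) := by
  have h1 : A ⊆ (univ : Finset V).biUnion fun t => A.filter fun φ => φ t = v := by
    intro φ hφ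
    obtain ⟨_, t, ht⟩ := hA φ hφ
    simp only [mem_biUnion, mem_univ, true_and, mem_filter]
    exact ⟨t, hφ, ht⟩
  refine (card_le_card h1).trans ((card_biUnion_le_card_mul _ _
    (Fintype.card W ^ (Fintype.card V - 2)) ?_).trans (by simp))
  intro t _
  by_cases htr : t = r
  · subst htr
    have : A.filter (fun φ => φ t = v) = ∅ := by
      apply filter_eq_empty_iff.2
      intro φ hφ h
      exact huv ((hA φ hφ).1 ▸ h)
    rw [this]; simp
  · have := card_le_fixed (A.filter fun φ => φ t = v) {r, t} (fun a => if a = r then u else v) (by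
      intro φ hφ a ha
      rw [mem_filter] at hφ
      simp only [mem_insert, mem_singleton] at ha
      rcases ha with rfl | rfl
      · simp [(hA φ hφ.1).1]
      · simp [htr, hφ.2])
    rwa [card_pair (Ne.symm htr)] at this

lemma card_three_le (A : Finset (V → W)) (r : V) (u v w : W) (huv : u ≠ v) (huw : u ≠ w)
    (hvw : v ≠ w) (hA : ∀ φ ∈ A, φ r = u ∧ ∃ t s, φ t = v ∧ φ s = w) :
    A.card ≤ Fintype.card V ^ 2 * Fintype.card W ^ (Fintype.card V - 3) := by
  have h1 : A ⊆ (univ : Finset (V × V)).biUnion fun p => A.filter fun φ => φ p.1 = v ∧ φ p.2 = w := by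
    intro φ hφ
    obtain ⟨_, t, s, ht, hs⟩ := hA φ hφ
    simp only [mem_biUnion, mem_univ, true_and, mem_filter]
    exact ⟨(t, s), hφ, ht, hs⟩
  refine (card_le_card h1).trans ((card_biUnion_le_card_mul _ _
    (Fintype.card W ^ (Fintype.card V - 3)) ?_).trans (by simp [sq]))
  rintro ⟨t, s⟩ _
  by_cases hd : t = r ∨ s = r ∨ t = s
  · have : A.filter (fun φ => φ t = v ∧ φ s = w) = ∅ := by
      apply filter_eq_empty_iff.2
      rintro φ hφ ⟨h2, h3⟩
      have h4 := (hA φ hφ).1
      rcases hd with rfl | rfl | rfl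
      · exact huv (h4 ▸ h2)
      · exact huw (h4 ▸ h3)
      · exact hvw (h2 ▸ h3)
    simp only [this, card_empty]; positivity
  · push Not at hd
    have := card_le_fixed (A.filter fun φ => φ t = v ∧ φ s = w) {r, t, s}
      (fun a => if a = r then u else if a = t then v else w) (by
      intro φ hφ a ha
      rw [mem_filter] at hφ
      simp only [mem_insert, mem_singleton] at ha
      rcases ha with rfl | rfl | rfl
      · simp [(hA φ hφ.1).1]
      · simp [hd.1, hφ.2.1]
      · simp [hd.2.1, Ne.symm hd.2.2, hφ.2.2])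
    rwa [card_eq_three.2 ⟨r, t, s, Ne.symm hd.1, Ne.symm hd.2.1, hd.2.2, rfl⟩] at this

lemma injOn_two {r s : V} {u v : W} (huv : u ≠ v) :
    Set.InjOn (fun a => if a = r then u else v) (({r, s} : Finset V) : Set V) := by
  intro a ha b hb hab
  simp only [coe_insert, coe_singleton, Set.mem_insert_iff, Set.mem_singleton_iff] at ha hb
  by_cases h1 : a = r <;> by_cases h2 : b = r
  · rw [h1, h2]
  · simp only [h1, h2, if_true, if_false] at hab; exact absurd hab huv
  · simp only [h1, h2, if_true, if_false] at hab; exact absurd hab.symm huv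
  · rw [ha.resolve_left h1, hb.resolve_left h2]

lemma injOn_three {r t s : V} (htr : t ≠ r) {u v w : W} (huv : u ≠ v) (huw : u ≠ w) (hvw : v ≠ w) :
    Set.InjOn (fun a => if a = r then u else if a = t then v else w)
      (({r, t, s} : Finset V) : Set V) := by
  intro a ha b hb hab
  simp only [coe_insert, coe_singleton, Set.mem_insert_iff, Set.mem_singleton_iff] at ha hb
  by_cases h1 : a = r <;> by_cases h2 : b = r <;> by_cases h3 : a = t <;> by_cases h4 : b = t <;>
    simp_all

/-- Lower bound by mapping into a clique. -/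
lemma le_card_clique (F : SimpleGraph V) (H : SimpleGraph W) (r : V) (S : Finset V) (hr : r ∈ S)
    (g : V → W) (hg : Set.InjOn g S) (K : Finset W) (hK : ∀ a ∈ S, g a ∉ K) (C : W → Prop)
    (hC1 : ∀ a ∈ S, C (g a)) (hC2 : ∀ w ∈ K, C w) (hC : ∀ p q, C p → C q → p ≠ q → H.Adj p q) :
    K.card.descFactorial (Fintype.card V - S.card) ≤
      ((Emb F H r (g r)).filter fun φ => ∀ a ∈ S, φ a = g a).card := by
  refine le_card_ext S g hg K hK _ ?_
  intro φ hφ h1 h2
  have hCφ : ∀ a, C (φ a) := by
    intro a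
    by_cases ha : a ∈ S
    · rw [h1 a ha]; exact hC1 a ha
    · exact hC2 _ (h2 a ha)
  rw [mem_filter, mem_Emb]
  exact ⟨⟨h1 r hr, hφ, fun a b hab => hC _ _ (hCφ a) (hCφ b) (hφ.ne hab.ne)⟩, h1⟩

end Pool.Agent.Q274.FI
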