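import Pool.Agent.Q274.FI.Basic

/-!
# Rooted degrees and injective homomorphisms
-/

set_option autoImplicit false

open Finset

namespace Pool.Agent.Q274.FI

open scoped Classical

/-- The `(F)_r`-degree of `v` in `G`: the number of subgraphs `H` of `G` such that some
isomorphism from `F` to `H` sends the root `r` to `v`. -/
noncomputable def rootedDegree {V W : Type} (F : SimpleGraph V) (r : V) (G : SimpleGraph W)
    (v : W) : ℕ :=
  {H : G.Subgraph | ∃ φ : F ≃g H.coe, (φ r : W) = v}.ncard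

variable {V W : Type}

/-- The image of an injective homomorphism. -/
def imageSub {F : SimpleGraph V} {G : SimpleGraph W} (φ : V → W)
    (h : ∀ a b, F.Adj a b → G.Adj (φ a) (φ b)) : G.Subgraph where
  verts := Set.range φ
  Adj := fun p q => ∃ a b, F.Adj a b ∧ φ a = p ∧ φ b = q
  adj_sub := by
    rintro p q ⟨a, b, hab, rfl, rfl⟩
    exact h a b hab
  edge_vert := by
    rintro p q ⟨a, b, hab, rfl, rfl⟩
    exact ⟨a, rfl⟩
  symm := ⟨by
    rintro p q ⟨a, b, hab, rfl, rfl⟩
    exact ⟨b, a, hab.symm, rfl, rfl⟩⟩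

/-- An injective homomorphism is an isomorphism onto its image. -/
noncomputable def isoImage {F : SimpleGraph V} {G : SimpleGraph W} (φ : V → W)
    (h : ∀ a b, F.Adj a b → G.Adj (φ a) (φ b)) (hφ : Function.Injective φ) :
    F ≃g (imageSub φ h).coe where
  toEquiv := Equiv.ofInjective φ hφ
  map_rel_iff' := by
    intro a b
    constructor
    · rintro ⟨a', b', hab, h1, h2⟩
      rw [← hφ h1, ← hφ h2]
      exact hab
    · intro hab
      exact ⟨a, b, hab, rfl, rfl⟩

lemma isoImage_apply {F : SimpleGraph V} {G : SimpleGraph W} (φ : V → W)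
    (h : ∀ a b, F.Adj a b → G.Adj (φ a) (φ b)) (hφ : Function.Injective φ) (a : V) :
    ((isoImage φ h hφ) a : W) = φ a := rfl

/-- A subgraph is determined by the map of an isomorphism onto it. -/
lemma sub_ext {F : SimpleGraph V} {G : SimpleGraph W} {H H' : G.Subgraph} (φ : F ≃g H.coe)
    (φ' : F ≃g H'.coe) (h : ∀ a, (φ a : W) = φ' a) : H = H' := by
  have key : ∀ {H H' : G.Subgraph} (φ : F ≃g H.coe) (φ' : F ≃g H'.coe)
      (_ : ∀ a, (φ a : W) = φ' a), H ≤ H' := by
    intro H H' φ φ' h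
    constructor
    · intro w hw
      have h1 := φ.apply_symm_apply ⟨w, hw⟩
      have h2 := h (φ.symm ⟨w, hw⟩)
      rw [h1] at h2
      rw [show w = _ from h2]
      exact Subtype.coe_prop _
    · intro p q hpq
      have hp := hpq.fst_mem
      have hq := hpq.snd_mem
      have h3 : H.coe.Adj ⟨p, hp⟩ ⟨q, hq⟩ := hpq
      have h4 := φ.symm.map_adj_iff.2 h3
      have h5 := φ'.map_adj_iff.2 h4
      have h6 := h (φ.symm ⟨p, hp⟩)
      have h7 := h (φ.symm ⟨q, hq⟩)
      rw [φ.apply_symm_apply] at h6 h7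
      change H'.Adj (φ' _ : W) (φ' _ : W) at h5
      rw [← h6, ← h7] at h5
      exact h5
  exact le_antisymm (key φ φ' h) (key φ' φ fun a => (h a).symm)

variable [Fintype V] [Fintype W]

theorem card_Emb_eq (F : SimpleGraph V) (r : V) (G : SimpleGraph W) (v : W) :
    (Emb F G r v).card = rootedDegree F r G v * Nat.card {ψ : F ≃g F // ψ r = r} := by
  set S := {H : G.Subgraph | ∃ φ : F ≃g H.coe, (φ r : W) = v} with hS
  have h1 : (Emb F G r v).card = Nat.card {φ // φ ∈ Emb F G r v} := by
    rw [Nat.card_eq_fintype_card, Fintype.card_coe]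
  have h2 : rootedDegree F r G v = Nat.card S := rfl
  rw [h1, h2, ← Nat.card_prod]
  symm
  have hmem : ∀ (H : G.Subgraph) (χ : F ≃g H.coe), (χ r : W) = v →
      (fun a => (χ a : W)) ∈ Emb F G r v := by
    intro H χ hχ
    rw [mem_Emb]
    refine ⟨hχ, fun a b hab => χ.injective (Subtype.ext hab), fun a b hab => ?_⟩
    exact H.adj_sub (χ.map_adj_iff.2 hab)
  refine Nat.card_eq_of_bijective (fun p : S × {ψ : F ≃g F // ψ r = r} =>
    (⟨fun a => ((p.1.2.choose : F ≃g (p.1 : G.Subgraph).coe) (p.2.1 a) : W),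
      hmem _ (p.2.1.trans p.1.2.choose) (by
        show ((p.1.2.choose : F ≃g (p.1 : G.Subgraph).coe) (p.2.1 r) : W) = v
        rw [p.2.2]
        exact p.1.2.choose_spec)⟩ : {φ // φ ∈ Emb F G r v})) ⟨?_, ?_⟩
  · rintro ⟨H, ψ⟩ ⟨H', ψ'⟩ h
    have h3 : ∀ a, ((ψ.1.trans H.2.choose) a : W) = (ψ'.1.trans H'.2.choose) a := by
      intro a
      exact congrFun (congrArg Subtype.val h) a
    have h4 : (H : G.Subgraph) = H' := sub_ext _ _ h3
    have h5 : H = H' := Subtype.ext h4
    subst h5
    congr 1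
    apply Subtype.ext
    ext a
    have h6 := h3 a
    exact H.2.choose.injective (Subtype.ext h6)
  · rintro ⟨φ, hφ⟩
    have hφ' := mem_Emb.1 hφ
    obtain ⟨e1, e2, e3⟩ := hφ'
    have hHS : imageSub φ e3 ∈ S := ⟨isoImage φ e3 e2, e1⟩
    set χ : F ≃g (imageSub φ e3).coe := hHS.choose with hχ
    have hχr : (χ r : W) = v := hHS.choose_spec
    refine ⟨⟨⟨imageSub φ e3, hHS⟩, ⟨(isoImage φ e3 e2).trans χ.symm, ?_⟩⟩, ?_⟩
    · show χ.symm (isoImage φ e3 e2 r) = r
      apply χ.injective
      rw [χ.apply_symm_apply]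
      apply Subtype.ext
      rw [isoImage_apply, e1, hχr]
    · apply Subtype.ext
      funext a
      show ((χ (χ.symm (isoImage φ e3 e2 a)) : _) : W) = φ a
      rw [χ.apply_symm_apply]
      rfl

/-- Vertices with the same rooted degree have the same number of injective homomorphisms. -/
theorem Emb_card_eq_of_degree {F : SimpleGraph V} {r : V} {G : SimpleGraph W} {u v : W}
    (h : rootedDegree F r G u = rootedDegree F r G v) :
    (Emb F G r u).card = (Emb F G r v).card := by
  rw [card_Emb_eq, card_Emb_eq, h]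

end Pool.Agent.Q274.FI
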