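import Pool.Agent.Q274.FI.Step

/-!
# Reflecting a component: comparison of the two ends of a block
-/

set_option autoImplicit false

open Finset

namespace Pool.Agent.Q274.FI

open scoped Classical

variable {V W : Type} [Fintype V] [Fintype W]

/-- The homomorphisms that use the edge between `z` and `y`, with `t ↦ z`. -/
noncomputable def UseAt (F : SimpleGraph V) (H : SimpleGraph W) (r : V) (v z y : W) (t : V) :
    Finset (V → W) :=
  (Emb F H r v).filter fun φ => φ t = z ∧ ∃ s, F.Adj t s ∧ φ s = y

lemma card_Use_eq (F : SimpleGraph V) (H : SimpleGraph W) (r : V) (v z y : W) :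
    (Use F H r v z y).card = ∑ t, (UseAt F H r v z y t).card := by
  have h1 : Use F H r v z y = univ.biUnion fun t => UseAt F H r v z y t := by
    ext φ
    simp only [Use, UseAt, mem_filter, mem_biUnion, mem_univ, true_and]
    constructor
    · rintro ⟨h, t, s, h1, h2, h3⟩
      exact ⟨t, h, h2, s, h1, h3⟩
    · rintro ⟨t, h, h2, s, h1, h3⟩
      exact ⟨h, t, s, h1, h2, h3⟩
  rw [h1, card_biUnion]
  intro t _ t' _ hne
  rw [Function.onFun, Finset.disjoint_left]
  intro φ h2 h3
  simp only [UseAt, mem_filter, mem_Emb] at h2 h3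
  exact hne (h2.1.2.1 (h2.2.1.trans h3.2.1.symm))

variable {H : SimpleGraph W} {y : W} {R : ℕ} {ι : Fin (2 * R) → W}

/-- The constraint graph on the vertices of `F`. -/
def Rel (F : SimpleGraph V) (ι : Fin (2 * R) → W) (φ : V → W) (a b : V) : Prop :=
  F.Adj a b ∧ (∃ x, ι x = φ a) ∧ (∃ x, ι x = φ b) ∧ rep ι (φ a) + rep ι (φ b) < R

/-- Reflection of the images of the component of `t`. -/
noncomputable def flip (F : SimpleGraph V) (ι : Fin (2 * R) → W) (t : V) (φ : V → W) (a : V) : W :=
  if Relation.ReflTransGen (Rel F ι φ) t a then refl ι (φ a) else φ a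

lemma flip_block (hι : Function.Injective ι) (F : SimpleGraph V) (t : V) (φ : V → W) (a : V) :
    (∃ x, ι x = flip F ι t φ a) ↔ ∃ x, ι x = φ a := by
  unfold flip
  split_ifs
  · exact block_refl hι _
  · rfl

lemma flip_rep (hι : Function.Injective ι) (F : SimpleGraph V) (t : V) (φ : V → W) (a : V) :
    rep ι (flip F ι t φ a) = rep ι (φ a) := by
  unfold flip
  split_ifs
  · exact rep_refl hι _
  · rfl

lemma rel_flip (hι : Function.Injective ι) (F : SimpleGraph V) (t : V) (φ : V → W) :
    Rel F ι (flip F ι t φ) = Rel F ι φ := by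
  funext a b
  unfold Rel
  rw [flip_block hι, flip_block hι, flip_rep hι, flip_rep hι]

omit [Fintype V] [Fintype W] in
lemma flip_pos {F : SimpleGraph V} {t a : V} {φ : V → W}
    (h : Relation.ReflTransGen (Rel F ι φ) t a) : flip F ι t φ a = refl ι (φ a) := by
  unfold flip; rw [if_pos h]

omit [Fintype V] [Fintype W] in
lemma flip_neg {F : SimpleGraph V} {t a : V} {φ : V → W}
    (h : ¬ Relation.ReflTransGen (Rel F ι φ) t a) : flip F ι t φ a = φ a := by
  unfold flip; rw [if_neg h]

lemma flip_flip (hι : Function.Injective ι) (F : SimpleGraph V) (t : V) (φ : V → W) :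
    flip F ι t (flip F ι t φ) = φ := by
  funext a
  by_cases h : Relation.ReflTransGen (Rel F ι φ) t a
  · have h' : Relation.ReflTransGen (Rel F ι (flip F ι t φ)) t a := by
      rw [rel_flip hι]; exact h
    rw [flip_pos h', flip_pos h, refl_refl hι]
  · have h' : ¬ Relation.ReflTransGen (Rel F ι (flip F ι t φ)) t a := by
      rw [rel_flip hι]; exact h
    rw [flip_neg h', flip_neg h]

/-- The homomorphisms with two vertices in mirror position. -/
noncomputable def Mir (F : SimpleGraph V) (H : SimpleGraph W) (r : V) (v z y : W) (t : V)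
    (ι : Fin (2 * R) → W) : Finset (V → W) :=
  (UseAt F H r v z y t).filter fun φ =>
    ∃ a b, a ≠ b ∧ (∃ x, ι x = φ a) ∧ φ b = refl ι (φ a)

lemma SBlock.card_Mir_le (hB : SBlock H y R ι) (F : SimpleGraph V) (r : V) (x xl : Fin (2 * R))
    (hx0 : (x : ℕ) ≠ 0) (hxR : (x : ℕ) < R) (hxl : (xl : ℕ) = 2 * R - 1) (t : V) :
    Fintype.card W * (Mir F H r (ι x) (ι xl) y t ι).card ≤
      Fintype.card V ^ 3 * Fintype.card W ^ (Fintype.card V - 3) := by
  have hι := hB.inj
  have hxlt := xl.2
  have h1 : Mir F H r (ι x) (ι xl) y t ι ⊆ (univ : Finset (V × V × V)).biUnion fun p =>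
      (Mir F H r (ι x) (ι xl) y t ι).filter fun φ =>
        φ p.1 = y ∧ p.2.1 ≠ p.2.2 ∧ (∃ x, ι x = φ p.2.1) ∧ φ p.2.2 = refl ι (φ p.2.1) := by
    intro φ hφ
    have hφ' := hφ
    rw [Mir, mem_filter, UseAt, mem_filter] at hφ'
    obtain ⟨⟨_, _, s, _, hs⟩, a, b, hab, hx, he⟩ := hφ'
    simp only [mem_biUnion, mem_univ, true_and, mem_filter]
    exact ⟨(s, a, b), hφ, hs, hab, hx, he⟩
  have h2 : ∀ p : V × V × V, Fintype.card W * ((Mir F H r (ι x) (ι xl) y t ι).filter fun φ =>
        φ p.1 = y ∧ p.2.1 ≠ p.2.2 ∧ (∃ x, ι x = φ p.2.1) ∧ φ p.2.2 = refl ι (φ p.2.1)).card ≤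
      Fintype.card W ^ (Fintype.card V - 3) := by
    rintro ⟨s, a, b⟩
    simp only
    set A := (Mir F H r (ι x) (ι xl) y t ι).filter fun φ =>
        φ s = y ∧ a ≠ b ∧ (∃ x, ι x = φ a) ∧ φ b = refl ι (φ a) with hA
    by_cases hne : A = ∅
    · rw [hne]; simp
    -- the data of a member
    have hmem : ∀ φ ∈ A, φ r = ι x ∧ φ t = ι xl ∧ φ s = y ∧ a ≠ b ∧ (∃ x, ι x = φ a) ∧
        φ b = refl ι (φ a) ∧ Function.Injective φ := by
      intro φ hφ
      rw [hA, mem_filter, Mir, mem_filter, UseAt, mem_filter, mem_Emb] at hφ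
      obtain ⟨⟨⟨⟨e1, e2, _⟩, e4, _⟩, _⟩, e5, e6, e7, e8⟩ := hφ
      exact ⟨e1, e4, e5, e6, e7, e8, e2⟩
    obtain ⟨φ₀, hφ₀⟩ := Finset.nonempty_iff_ne_empty.2 hne
    obtain ⟨e1, e2, e3, hab, e5, e6, e7⟩ := hmem φ₀ hφ₀
    have hrt : r ≠ t := by
      rintro rfl
      rw [e1] at e2
      have := congrArg Fin.val (hι e2)
      omega
    have hrs : r ≠ s := by
      rintro rfl
      rw [e1] at e3
      exact hB.ny _ e3
    have hts : t ≠ s := by
      rintro rfl
      rw [e2] at e3
      exact hB.ny _ e3
    have e5' : ∃ x, ι x = φ₀ b := by rw [e6]; exact (block_refl hι _).2 e5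
    have has : a ≠ s := by
      rintro rfl
      obtain ⟨z, hz⟩ := e5
      rw [e3] at hz; exact hB.ny _ hz
    have hbs : b ≠ s := by
      rintro rfl
      obtain ⟨z, hz⟩ := e5'
      rw [e3] at hz; exact hB.ny _ hz
    have hcard : ({r, t, s} : Finset V).card = 3 :=
      card_eq_three.2 ⟨r, t, s, hrt, hrs, hts, rfl⟩
    -- one of the two is free
    have hfree : a ∉ ({r, t, s} : Finset V) ∨ b ∉ ({r, t, s} : Finset V) := by
      by_contra hcon
      push Not at hcon
      simp only [mem_insert, mem_singleton] at hcon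
      obtain ⟨h3, h4⟩ := hcon
      have h5 : rep ι (φ₀ b) = rep ι (φ₀ a) := by rw [e6, rep_refl hι]
      have h6 : rep ι (ι x) ≠ rep ι (ι xl) := by
        rw [rep_ι hι, rep_ι hι]; omega
      rcases h3 with rfl | rfl | rfl
      · rcases h4 with rfl | rfl | rfl
        · exact hab rfl
        · rw [e1, e2] at h5; exact h6 h5.symm
        · exact hbs rfl
      · rcases h4 with rfl | rfl | rfl
        · rw [e1, e2] at h5; exact h6 h5
        · exact hab rfl
        · exact hbs rfl
      · exact has rfl
    have hbound : ∃ c, c ∉ ({r, t, s} : Finset V) ∧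
        A.card ≤ Fintype.card W ^ (((insert c {r, t, s} : Finset V))ᶜ).card := by
      rcases hfree with hf | hf
      · refine ⟨a, hf, card_le_of_det A _ ?_⟩
        intro φ hφ φ' hφ' he
        obtain ⟨f1, f2, f3, _, f5, f6, f7⟩ := hmem φ hφ
        obtain ⟨g1, g2, g3, _, g5, g6, g7⟩ := hmem φ' hφ'
        have hb : φ b = φ' b := by
          by_cases hb : b ∈ ({r, t, s} : Finset V)
          · simp only [mem_insert, mem_singleton] at hb
            rcases hb with rfl | rfl | rfl
            · rw [f1, g1]
            · rw [f2, g2]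
            · rw [f3, g3]
          · exact he b (by
              rw [mem_compl, mem_insert]
              rintro (h | h)
              · exact hab h.symm
              · exact hb h)
        funext c
        by_cases hc : c ∈ (insert a {r, t, s} : Finset V)
        · simp only [mem_insert, mem_singleton] at hc
          rcases hc with rfl | rfl | rfl | rfl
          · have h3 : refl ι (φ b) = refl ι (φ' b) := by rw [hb]
            rwa [f6, g6, refl_refl hι, refl_refl hι] at h3
          · rw [f1, g1]
          · rw [f2, g2]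
          · rw [f3, g3]
        · exact he c (by rwa [mem_compl])
      · refine ⟨b, hf, card_le_of_det A _ ?_⟩
        intro φ hφ φ' hφ' he
        obtain ⟨f1, f2, f3, _, f5, f6, f7⟩ := hmem φ hφ
        obtain ⟨g1, g2, g3, _, g5, g6, g7⟩ := hmem φ' hφ'
        have ha : φ a = φ' a := by
          by_cases ha : a ∈ ({r, t, s} : Finset V)
          · simp only [mem_insert, mem_singleton] at ha
            rcases ha with rfl | rfl | rfl
            · rw [f1, g1]
            · rw [f2, g2]
            · rw [f3, g3]
          · exact he a (by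
              rw [mem_compl, mem_insert]
              rintro (h | h)
              · exact hab h
              · exact ha h)
        funext c
        by_cases hc : c ∈ (insert b {r, t, s} : Finset V)
        · simp only [mem_insert, mem_singleton] at hc
          rcases hc with rfl | rfl | rfl | rfl
          · rw [f6, g6, ha]
          · rw [f1, g1]
          · rw [f2, g2]
          · rw [f3, g3]
        · exact he c (by rwa [mem_compl])
    obtain ⟨c, hc, hle⟩ := hbound
    have h4 : (insert c {r, t, s} : Finset V).card = 4 := by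
      rw [card_insert_of_notMem hc, hcard]
    have h5 := card_le_univ (insert c {r, t, s} : Finset V)
    rw [card_compl, h4] at hle
    rw [h4] at h5
    calc Fintype.card W * A.card ≤ Fintype.card W * Fintype.card W ^ (Fintype.card V - 4) :=
          Nat.mul_le_mul_left _ hle
      _ = Fintype.card W ^ (Fintype.card V - 3) := by
          rw [← pow_succ']; congr 1; omega
  calc Fintype.card W * (Mir F H r (ι x) (ι xl) y t ι).card
      ≤ Fintype.card W * ∑ p : V × V × V, ((Mir F H r (ι x) (ι xl) y t ι).filter fun φ =>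
        φ p.1 = y ∧ p.2.1 ≠ p.2.2 ∧ (∃ x, ι x = φ p.2.1) ∧ φ p.2.2 = refl ι (φ p.2.1)).card :=
        Nat.mul_le_mul_left _ ((card_le_card h1).trans card_biUnion_le)
    _ ≤ ∑ p : V × V × V, Fintype.card W ^ (Fintype.card V - 3) := by
        rw [Finset.mul_sum]; exact Finset.sum_le_sum fun p _ => h2 p
    _ = _ := by simp [pow_succ, mul_assoc]

/-- The main injection. -/
lemma SBlock.card_UseAt_le (hB : SBlock H y R ι) (F : SimpleGraph V) (r : V)
    (x x₀ xl : Fin (2 * R)) (hxR : (x : ℕ) < R) (h0 : (x₀ : ℕ) = 0) (hxl : (xl : ℕ) = 2 * R - 1)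
    (t : V) :
    (UseAt F H r (ι x) (ι xl) y t).card ≤
      (UseAt F H r (ι x) (ι x₀) y t).card + (Mir F H r (ι x) (ι xl) y t ι).card := by
  have hι := hB.inj
  have hxlt := xl.2
  have hrev : Fin.rev xl = x₀ := by
    apply Fin.ext
    have := Fin.val_rev xl
    omega
  have hinj : (UseAt F H r (ι x) (ι xl) y t \ Mir F H r (ι x) (ι xl) y t ι).card ≤
      (UseAt F H r (ι x) (ι x₀) y t).card := by
    refine card_le_card_of_injOn (fun φ => flip F ι t φ) ?_ ?_
    · intro φ hφ
      rw [mem_coe, mem_sdiff] at hφ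
      obtain ⟨hφU, hφM⟩ := hφ
      have hφU' := hφU
      rw [UseAt, mem_filter, mem_Emb] at hφU
      obtain ⟨⟨e1, e2, e3⟩, e4, s, hts, e5⟩ := hφU
      have hmir : ∀ a b, a ≠ b → (∃ x, ι x = φ a) → φ b ≠ refl ι (φ a) := by
        intro a b hab hx he
        exact hφM (by rw [Mir, mem_filter]; exact ⟨hφU', a, b, hab, hx, he⟩)
      have hgen : ∀ a b, (∃ x, ι x = φ a) → (∃ x, ι x = φ b) → rep ι (φ a) = rep ι (φ b) →
          a = b := by
        rintro a b ⟨z, hz⟩ ⟨z', hz'⟩ hr
        by_contra hab
        rw [← hz, ← hz'] at hr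
        rcases rep_eq hι hr with h | h
        · rw [h, hz] at hz'
          exact hab (e2 hz')
        · refine hmir a b hab ⟨z, hz⟩ ?_
          rw [← hz', h, ← hz, refl_ι hι]
      -- all images in the component are on the right side
      have hside : ∀ a, Relation.ReflTransGen (Rel F ι φ) t a → ∃ z : Fin (2 * R), ι z = φ a ∧
          R ≤ (z : ℕ) := by
        intro a ha
        induction ha with
        | refl => exact ⟨xl, e4.symm, by omega⟩
        | tail _ h ih =>
          obtain ⟨z, hz, hzR⟩ := ih
          obtain ⟨hadj, _, ⟨z', hz'⟩, hsum⟩ := h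
          refine ⟨z', hz', ?_⟩
          have h3 := e3 _ _ hadj
          rw [← hz, ← hz', hB.adj] at h3
          rw [← hz, ← hz', rep_ι hι, rep_ι hι] at hsum
          have := z.2
          have := z'.2
          omega
      have hrC : ¬ Relation.ReflTransGen (Rel F ι φ) t r := by
        intro h
        obtain ⟨z, hz, hzR⟩ := hside r h
        rw [e1] at hz
        have := congrArg Fin.val (hι hz)
        omega
      have hsC : ¬ Relation.ReflTransGen (Rel F ι φ) t s := by
        intro h
        obtain ⟨z, hz, hzR⟩ := hside s h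
        rw [e5] at hz
        exact hB.ny z hz
      have hpos : ∀ a, Relation.ReflTransGen (Rel F ι φ) t a → flip F ι t φ a = refl ι (φ a) := by
        intro a ha; unfold flip; rw [if_pos ha]
      have hneg : ∀ a, ¬ Relation.ReflTransGen (Rel F ι φ) t a → flip F ι t φ a = φ a := by
        intro a ha; unfold flip; rw [if_neg ha]
      -- mixed edges
      have hmix : ∀ a b, F.Adj a b → Relation.ReflTransGen (Rel F ι φ) t a →
          ¬ Relation.ReflTransGen (Rel F ι φ) t b → H.Adj (refl ι (φ a)) (φ b) := by
        intro a b hab ha hb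
        obtain ⟨z, hz, hzR⟩ := hside a ha
        have h3 := e3 a b hab
        rw [← hz] at h3
        rcases hB.out z _ h3 with h4 | ⟨z', hz'⟩
        · rw [h4, ← hz, refl_ι hι]; exact hB.top _
        · have h5 : R ≤ rep ι (φ a) + rep ι (φ b) := by
            by_contra hlt
            push Not at hlt
            exact hb (ha.tail ⟨hab, ⟨z, hz⟩, ⟨z', hz'⟩, hlt⟩)
          rw [← hz, refl_ι hι, ← hz']
          apply hB.adj_rep
          · rw [← refl_ι hι, rep_refl hι, hz, hz']
            intro he
            exact hab.ne (hgen a b ⟨z, hz⟩ ⟨z', hz'⟩ he)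
          · rw [← refl_ι hι, rep_refl hι, hz, hz']
            exact h5
      rw [mem_coe, UseAt, mem_filter, mem_Emb]
      refine ⟨⟨?_, ?_, ?_⟩, ?_, s, hts, ?_⟩
      · show flip F ι t φ r = ι x
        rw [hneg r hrC, e1]
      · intro a b hab
        change flip F ι t φ a = flip F ι t φ b at hab
        by_cases ha : ∃ x, ι x = φ a
        · have hb : ∃ x, ι x = φ b := by
            rw [← flip_block hι F t φ b, ← hab, flip_block hι]; exact ha
          refine hgen a b ha hb ?_
          rw [← flip_rep hι F t φ a, hab, flip_rep hι]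
        · have hb : ¬ ∃ x, ι x = φ b := by
            rw [← flip_block hι F t φ b, ← hab, flip_block hι]; exact ha
          have h3 : ¬ Relation.ReflTransGen (Rel F ι φ) t a := by
            intro h; obtain ⟨z, hz, _⟩ := hside a h; exact ha ⟨z, hz⟩
          have h4 : ¬ Relation.ReflTransGen (Rel F ι φ) t b := by
            intro h; obtain ⟨z, hz, _⟩ := hside b h; exact hb ⟨z, hz⟩
          rw [hneg a h3, hneg b h4] at hab
          exact e2 hab
      · intro a b hab
        show H.Adj (flip F ι t φ a) (flip F ι t φ b)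
        by_cases ha : Relation.ReflTransGen (Rel F ι φ) t a <;>
          by_cases hb : Relation.ReflTransGen (Rel F ι φ) t b
        · rw [hpos a ha, hpos b hb]; exact hB.refl_adj' (e3 a b hab)
        · rw [hpos a ha, hneg b hb]; exact hmix a b hab ha hb
        · rw [hneg a ha, hpos b hb]; exact (hmix b a hab.symm hb ha).symm
        · rw [hneg a ha, hneg b hb]; exact e3 a b hab
      · show flip F ι t φ t = ι x₀
        rw [hpos t Relation.ReflTransGen.refl, e4, refl_ι hι, hrev]
      · show flip F ι t φ s = y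
        rw [hneg s hsC, e5]
    · intro φ _ φ' _ he
      have := congrArg (flip F ι t) he
      simpa only [flip_flip hι] using this
  have e1 : (UseAt F H r (ι x) (ι xl) y t).card =
      (UseAt F H r (ι x) (ι xl) y t \ Mir F H r (ι x) (ι xl) y t ι).card +
        (Mir F H r (ι x) (ι xl) y t ι).card := by
    rw [card_sdiff_add_card_eq_card (by rw [Mir]; exact filter_subset _ _)]
  omega

end Pool.Agent.Q274.FI
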