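import Pool.Agent.Q274.FI.Main

/-!
# The graphs
-/

set_option autoImplicit false

open Finset

namespace Pool.Agent.Q274.FI

/-- The vertices: an apex and the positions in the two blocks. -/
abbrev Vtx (L : ℕ) : Type := Option (Fin (2 * (16 * L)) ⊕ Fin (2 * (2 * L)))

/-- The adjacency relation. -/
def rel (L : ℕ) : Vtx L → Vtx L → Prop
  | none, none => False
  | none, some (Sum.inl x) => (x : ℕ) ≠ 0
  | none, some (Sum.inr x) => (x : ℕ) ≠ 0
  | some (Sum.inl x), none => (x : ℕ) ≠ 0
  | some (Sum.inr x), none => (x : ℕ) ≠ 0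
  | some (Sum.inl x), some (Sum.inl x') =>
      x ≠ x' ∧ (x : ℕ) < x' + 16 * L ∧ (x' : ℕ) < x + 16 * L
  | some (Sum.inr x), some (Sum.inr x') =>
      x ≠ x' ∧ (x : ℕ) < x' + 2 * L ∧ (x' : ℕ) < x + 2 * L
  | some (Sum.inl _), some (Sum.inr _) => False
  | some (Sum.inr _), some (Sum.inl _) => False

/-- Two path powers with a common apex that misses the first vertex of each. -/
def graph (L : ℕ) : SimpleGraph (Vtx L) where
  Adj := rel L
  symm := ⟨by
    rintro (_ | x | x) (_ | x' | x') h
    · exact h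
    · exact h
    · exact h
    · exact h
    · exact ⟨h.1.symm, h.2.2, h.2.1⟩
    · exact h
    · exact h
    · exact h
    · exact ⟨h.1.symm, h.2.2, h.2.1⟩⟩
  loopless := ⟨by
    rintro (_ | x | x) h
    · exact h
    · exact h.1 rfl
    · exact h.1 rfl⟩

lemma graph_two (L : ℕ) : TwoBlocks (graph L) none L (fun x => some (Sum.inl x))
    (fun x => some (Sum.inr x)) where
  P := {
    inj := fun x x' h => Sum.inl.inj (Option.some.inj h)
    ny := fun x h => Option.some_ne_none _ h
    adj := fun x x' => Iff.rfl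
    out := by
      rintro x (_ | x' | x') h
      · exact Or.inl rfl
      · exact Or.inr ⟨x', rfl⟩
      · exact absurd h (fun h => h)
    top := fun x => Iff.rfl }
  Q := {
    inj := fun x x' h => Sum.inr.inj (Option.some.inj h)
    ny := fun x h => Option.some_ne_none _ h
    adj := fun x x' => Iff.rfl
    out := by
      rintro x (_ | x' | x') h
      · exact Or.inl rfl
      · exact absurd h (fun h => h)
      · exact Or.inr ⟨x', rfl⟩
    top := fun x => Iff.rfl }
  ne := fun x x' h => Sum.inl_ne_inr (Option.some.inj h)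
  all := by
    rintro (_ | x | x)
    · exact Or.inl rfl
    · exact Or.inr (Or.inl ⟨x, rfl⟩)
    · exact Or.inr (Or.inr ⟨x, rfl⟩)

/-- Transport of a block along an isomorphism. -/
lemma Block.iso {W W' : Type} {G : SimpleGraph W} {G' : SimpleGraph W'} {y : W} {R : ℕ}
    {ι : Fin (2 * R) → W} (hG : Block G y R ι) (e : G ≃g G') :
    Block G' (e y) R (fun x => e (ι x)) where
  inj := fun x x' h => hG.inj (e.injective h)
  ny := fun x h => hG.ny x (e.injective h)
  adj := fun x x' => e.map_adj_iff.trans (hG.adj x x')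
  out := by
    intro x w h
    obtain ⟨w, rfl⟩ := e.surjective w
    rcases hG.out x w (e.map_adj_iff.1 h) with rfl | ⟨x', rfl⟩
    · exact Or.inl rfl
    · exact Or.inr ⟨x', rfl⟩
  top := fun x => e.map_adj_iff.trans (hG.top x)

lemma TwoBlocks.iso {W W' : Type} {G : SimpleGraph W} {G' : SimpleGraph W'} {y : W} {L : ℕ}
    {ι : Fin (2 * (16 * L)) → W} {κ : Fin (2 * (2 * L)) → W} (hT : TwoBlocks G y L ι κ)
    (e : G ≃g G') : TwoBlocks G' (e y) L (fun x => e (ι x)) (fun x => e (κ x)) where
  P := hT.P.iso e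
  Q := hT.Q.iso e
  ne := fun x x' h => hT.ne x x' (e.injective h)
  all := by
    intro w
    obtain ⟨w, rfl⟩ := e.surjective w
    rcases hT.all w with rfl | ⟨x', rfl⟩ | ⟨x', rfl⟩
    · exact Or.inl rfl
    · exact Or.inr (Or.inl ⟨x', rfl⟩)
    · exact Or.inr (Or.inr ⟨x', rfl⟩)

lemma exists_two (L : ℕ) : ∃ G : SimpleGraph (Fin (36 * L + 1)), ∃ y ι κ, TwoBlocks G y L ι κ := by
  have hcard : Fintype.card (Vtx L) = 36 * L + 1 := (graph_two L).card
  have e := SimpleGraph.overFinIso (graph L) hcard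
  exact ⟨_, _, _, _, (graph_two L).iso e⟩

end Pool.Agent.Q274.FI
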