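import Pool.Agent.Q274.FI.Cmp

/-!
# Distinct vertices of a block have distinct numbers of rooted homomorphisms
-/

set_option autoImplicit false

open Finset

namespace Pool.Agent.Q274.FI

open scoped Classical

variable {V W : Type} [Fintype V] [Fintype W]

omit [Fintype V] in
/-- In a connected graph that is not a star centred at `r` there is a path of length two
starting at `r`. -/
lemma exists_path_two (F : SimpleGraph V) (hF : F.Connected) (r : V)
    (hst : ¬ ∀ a b, F.Adj a b ↔ a ≠ b ∧ (a = r ∨ b = r)) :
    ∃ t s, F.Adj r t ∧ F.Adj t s ∧ s ≠ r := by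
  by_contra hcon
  push Not at hcon
  apply hst
  have h1 : ∀ a, a = r ∨ F.Adj r a := by
    intro a
    obtain ⟨p⟩ := hF.preconnected a r
    induction p with
    | nil => exact Or.inl rfl
    | cons h _ ih =>
      rcases ih hst hcon with h2 | h2
      · subst h2; exact Or.inr h.symm
      · exact Or.inl (hcon _ _ h2 h.symm)
  intro a b
  constructor
  · intro h
    refine ⟨h.ne, ?_⟩
    rcases h1 a with h2 | h2
    · exact Or.inl h2
    · exact Or.inr (hcon _ _ h2 h)
  · rintro ⟨hne, rfl | rfl⟩
    · exact (h1 b).resolve_left hne.symm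
    · exact ((h1 a).resolve_left hne).symm

variable {G : SimpleGraph W} {y : W} {R : ℕ} {ι : Fin (2 * R) → W}

theorem Block.injective (hG : Block G y R ι) (hR : 2 ≤ R) (F : SimpleGraph V) {r t₀ s₀ : V}
    (hrt : F.Adj r t₀) (hts : F.Adj t₀ s₀) (hsr : s₀ ≠ r)
    (c1 : 2 * (Fintype.card V ^ 2 * Fintype.card W ^ (Fintype.card V - 3)) <
      (R - 2).descFactorial (Fintype.card V - 2))
    (c3 : Fintype.card V ^ 4 * Fintype.card W ^ (Fintype.card V - 3) <
      Fintype.card W * (R - 2).descFactorial (Fintype.card V - 3)) :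
    Function.Injective fun x => (Emb F G r (ι x)).card := by
  have hpos : 0 < 2 * R := by omega
  set x₀ : Fin (2 * R) := ⟨0, hpos⟩ with hx₀
  have h0 : (x₀ : ℕ) = 0 := rfl
  set xl : Fin (2 * R) := ⟨2 * R - 1, by omega⟩ with hxl'
  have hxl : (xl : ℕ) = 2 * R - 1 := rfl
  have hrev : Fin.rev x₀ = xl := by
    apply Fin.ext
    have := Fin.val_rev x₀
    omega
  set H := G ⊔ SimpleGraph.edge (ι x₀) y with hH
  have hB : SBlock H y R ι := hG.sblock x₀ h0
  have hι := hG.inj
  refine numeric_block R _ (fun x => (Emb F H r (ι x)).card)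
    (fun x => (Use F H r (ι x) (ι x₀) y).card)
    (Fintype.card V ^ 2 * Fintype.card W ^ (Fintype.card V - 3)) x₀ h0 ?_ ?_ ?_ ?_ ?_ ?_
  · intro x
    exact hG.card_add x₀ h0 F r (ι x)
  · intro x
    have := hB.card_refl F r (ι x) (fun _ => True) (fun _ => True) (fun _ => Iff.rfl)
    rw [refl_ι hι, filter_true, filter_true] at this
    exact this.symm
  · intro x x' h1 h2
    have hx := x.2
    have := hB.step F hrt x x' ⟨x + R, by omega⟩ h1 rfl h2
    omega
  · intro x hx
    refine card_Use_le F r _ _ (fun h => hx ?_) (hG.ny x) (hG.ny x₀)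
    rw [hι h, h0]
  · have h1 := hB.le_card_Use F hrt x₀ h0
    have h2 : (R - 2).descFactorial (Fintype.card V - 2) ≤
        (R - 1).descFactorial (Fintype.card V - 2) := Nat.descFactorial_le _ (by omega)
    omega
  · intro x hx hxR heq
    have h1 := hB.Use_cmp_good F hrt hts hsr x x₀ xl hx hxR h0 hxl
    have hy : refl ι y = y := refl_out (by rintro ⟨z, hz⟩; exact hG.ny z hz)
    have h2 : (Use F H r (ι x.rev) (ι x₀) y).card = (Use F H r (ι x) (ι xl) y).card := by
      have := hB.card_refl F r (ι x.rev) (fun φ => ∃ t s, F.Adj t s ∧ φ t = ι x₀ ∧ φ s = y)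
        (fun φ => ∃ t s, F.Adj t s ∧ φ t = ι xl ∧ φ s = y) (by
        intro φ
        constructor
        · rintro ⟨t, s, h3, h4, h5⟩
          refine ⟨t, s, h3, ?_, ?_⟩
          · show refl ι (φ t) = ι xl
            rw [h4, refl_ι hι, hrev]
          · show refl ι (φ s) = y
            rw [h5, hy]
        · rintro ⟨t, s, h3, h4, h5⟩
          refine ⟨t, s, h3, ?_, ?_⟩
          · apply refl_injective hι
            refine Eq.trans h4 ?_
            rw [refl_ι hι, hrev]
          · apply refl_injective hι
            refine Eq.trans h5 ?_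
            rw [hy])
      rw [refl_ι hι, Fin.rev_rev] at this
      unfold Use
      convert this
    rw [h2] at heq
    rw [heq] at h1
    omega

end Pool.Agent.Q274.FI
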