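import Pool.Agent.Q274.FI.Two

/-!
# Distinct vertices have distinct numbers of rooted homomorphisms
-/

set_option autoImplicit false

open Finset

namespace Pool.Agent.Q274.FI

open scoped Classical

lemma pow_bound (L w c k : ℕ) (hw : w ≤ 40 * L) (hc : c * 40 ^ k < L) : c * w ^ k < L ^ (k + 1) := by
  have hL : 0 < L := by omega
  calc c * w ^ k ≤ c * (40 * L) ^ k := Nat.mul_le_mul_left _ (Nat.pow_le_pow_left hw k)
    _ = (c * 40 ^ k) * L ^ k := by rw [mul_pow]; ring
    _ < L * L ^ k := Nat.mul_lt_mul_of_pos_right hc (by positivity)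
    _ = L ^ (k + 1) := by rw [pow_succ]; ring

lemma desc_bound (R L j : ℕ) (h : L + j ≤ R + 1) : L ^ j ≤ R.descFactorial j :=
  (Nat.pow_le_pow_left (by omega) j).trans (Nat.pow_sub_le_descFactorial R j)

variable {V W : Type} [Fintype V] [Fintype W]

variable {G : SimpleGraph W} {y : W}

theorem TwoBlocks.injective {L : ℕ} {ι : Fin (2 * (16 * L)) → W} {κ : Fin (2 * (2 * L)) → W}
    (hT : TwoBlocks G y L ι κ) {F : SimpleGraph V} (hF : F.Connected) (h3 : 3 ≤ Fintype.card V)
    (r : V) (hst : ¬ ∀ a b, F.Adj a b ↔ a ≠ b ∧ (a = r ∨ b = r))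
    (hL : Fintype.card V ^ 4 * 40 ^ Fintype.card V < L) :
    Function.Injective fun w => (Emb F G r w).card := by
  obtain ⟨t₀, s₀, hrt, hts, hsr⟩ := exists_path_two F hF r hst
  have hcardW := hT.card
  obtain ⟨k, hk⟩ : ∃ k, Fintype.card V = k + 3 := ⟨Fintype.card V - 3, by omega⟩
  -- numerical estimates
  have hp : ∀ j, j ≤ k + 3 → ∀ c, c ≤ (k + 3) ^ 4 → c * 40 ^ j < L := by
    intro j hj c hc
    rw [hk] at hL
    refine lt_of_le_of_lt ?_ hL
    exact Nat.mul_le_mul hc (Nat.pow_le_pow_right (by norm_num) hj)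
  have hkL : k + 3 < L := by
    have h1 := hp 0 (by omega) (k + 3) (Nat.le_self_pow (by norm_num) _)
    simpa using h1
  have hw : Fintype.card W ≤ 40 * L := by omega
  have q2 : 2 * (k + 3) ^ 2 ≤ (k + 3) ^ 4 := by
    have : 2 ≤ (k + 3) ^ 2 := by nlinarith
    calc 2 * (k + 3) ^ 2 ≤ (k + 3) ^ 2 * (k + 3) ^ 2 := Nat.mul_le_mul_right _ this
      _ = (k + 3) ^ 4 := by ring
  have q1 : 2 * (k + 3) ≤ (k + 3) ^ 4 := by
    have : 2 ≤ (k + 3) ^ 3 := by
      calc 2 ≤ k + 3 := by omega
        _ ≤ (k + 3) ^ 3 := Nat.le_self_pow (by norm_num) _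
    calc 2 * (k + 3) ≤ (k + 3) ^ 3 * (k + 3) := Nat.mul_le_mul_right _ this
      _ = (k + 3) ^ 4 := by ring
  have hblock : ∀ R, 2 * L ≤ R →
      2 * (Fintype.card V ^ 2 * Fintype.card W ^ (Fintype.card V - 3)) <
        (R - 2).descFactorial (Fintype.card V - 2) ∧
      Fintype.card V ^ 4 * Fintype.card W ^ (Fintype.card V - 3) <
        Fintype.card W * (R - 2).descFactorial (Fintype.card V - 3) := by
    intro R hR
    have e1 : Fintype.card V - 3 = k := by omega
    have e2 : Fintype.card V - 2 = k + 1 := by omega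
    rw [e1, e2, hk]
    constructor
    · have h1 := pow_bound L (Fintype.card W) (2 * (k + 3) ^ 2) k hw (hp k (by omega) _ q2)
      have h2 := desc_bound (R - 2) L (k + 1) (by omega)
      rw [← mul_assoc]
      omega
    · have h1 := pow_bound L (Fintype.card W) ((k + 3) ^ 4) k hw (hp k (by omega) _ le_rfl)
      have h2 := desc_bound (R - 2) L k (by omega)
      refine lt_of_lt_of_le h1 ?_
      rw [pow_succ, mul_comm]
      exact Nat.mul_le_mul (by omega) h2
  have hP := hT.P.injective (by omega) F hrt hts hsr (hblock _ (by omega)).1 (hblock _ (by omega)).2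
  have hQ := hT.Q.injective (by omega) F hrt hts hsr (hblock _ le_rfl).1 (hblock _ le_rfl).2
  -- the two blocks
  have hPQ : ∀ x x', (Emb F G r (κ x')).card < (Emb F G r (ι x)).card := by
    intro x x'
    have h1 := hT.Q.card_le hF r x'
    have h2 := hT.P.le_card F r x
    have e1 : Fintype.card V - 1 = k + 2 := by omega
    have e2 : Fintype.card V - 2 = k + 1 := by omega
    rw [e1, e2] at h1
    rw [e1] at h2
    rw [hk] at h1
    have h4 := desc_bound (16 * L - 1) (8 * L) (k + 2) (by omega)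
    have h5 := pow_bound L (Fintype.card W) (k + 3) (k + 1) hw
      (hp (k + 1) (by omega) _ (Nat.le_self_pow (by norm_num) _))
    have h6 : (8 * L) ^ (k + 2) = 2 ^ (k + 2) * (2 * (2 * L)) ^ (k + 2) := by
      rw [← mul_pow]; congr 1; ring
    have h7 : 2 * (2 * (2 * L)) ^ (k + 2) ≤ 2 ^ (k + 2) * (2 * (2 * L)) ^ (k + 2) :=
      Nat.mul_le_mul_right _ (Nat.le_self_pow (by omega) 2)
    have h8 : L ^ (k + 2) ≤ (2 * (2 * L)) ^ (k + 2) := Nat.pow_le_pow_left (by omega) _
    have h9 : L ^ (k + 1 + 1) = L ^ (k + 2) := rfl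
    omega
  -- the apex
  have hyP : ∀ x, (Emb F G r (ι x)).card < (Emb F G r y).card := by
    intro x
    have h1 := hT.P.card_le_apex hF r x
    have h2 := hT.Q.le_card_apex (by omega) F r
    have e1 : Fintype.card V - 1 = k + 2 := by omega
    have e2 : Fintype.card V - 2 = k + 1 := by omega
    rw [e2, hk] at h1
    rw [e1] at h2
    have h4 := desc_bound (2 * L) L (k + 2) (by omega)
    have h5 := pow_bound L (Fintype.card W) (2 * (k + 3)) (k + 1) hw
      (hp (k + 1) (by omega) _ q1)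
    have h9 : L ^ (k + 1 + 1) = L ^ (k + 2) := rfl
    rw [mul_assoc] at h5
    have hdisj : Disjoint ((Emb F G r y).filter fun φ => ∀ a, a ≠ r → ∃ z, ι z = φ a)
        ((Emb F G r y).filter fun φ => ∀ a, a ≠ r → ∃ z, κ z = φ a) := by
      rw [Finset.disjoint_left]
      intro φ h6 h7
      rw [mem_filter] at h6 h7
      obtain ⟨z, hz⟩ := h6.2 t₀ hrt.ne'
      obtain ⟨z', hz'⟩ := h7.2 t₀ hrt.ne'
      exact hT.ne z z' (hz.trans hz'.symm)
    have h10 := card_union_of_disjoint hdisj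
    have h11 := card_le_card (union_subset (filter_subset (fun φ => ∀ a, a ≠ r → ∃ z, ι z = φ a)
      (Emb F G r y)) (filter_subset (fun φ => ∀ a, a ≠ r → ∃ z, κ z = φ a) (Emb F G r y)))
    omega
  have hyQ : ∀ x, (Emb F G r (κ x)).card < (Emb F G r y).card := fun x =>
    (hPQ ⟨0, by omega⟩ x).trans (hyP _)
  intro w w' hww
  simp only at hww
  rcases hT.all w with rfl | ⟨x, rfl⟩ | ⟨x, rfl⟩ <;> rcases hT.all w' with h | ⟨x', rfl⟩ | ⟨x', rfl⟩
  · exact h.symm
  · have := hyP x'; omega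
  · have := hyQ x'; omega
  · rw [h] at hww; have := hyP x; omega
  · rw [hP hww]
  · have := hPQ x x'; omega
  · rw [h] at hww; have := hyQ x; omega
  · have := hPQ x' x; omega
  · rw [hQ hww]

end Pool.Agent.Q274.FI
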