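import Pool.Agent.Q274.FI.Block

/-!
# Neighbouring vertices of a block
-/

set_option autoImplicit false

open Finset

namespace Pool.Agent.Q274.FI

open scoped Classical

variable {V W : Type} [Fintype V] [Fintype W]

/-- The homomorphisms that use the edge between `z` and `y`. -/
noncomputable def Use (F : SimpleGraph V) (H : SimpleGraph W) (r : V) (v z y : W) :
    Finset (V → W) :=
  (Emb F H r v).filter fun φ => ∃ t s, F.Adj t s ∧ φ t = z ∧ φ s = y

variable {H : SimpleGraph W} {y : W} {R : ℕ} {ι : Fin (2 * R) → W}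

/-- The numbers of rooted homomorphisms grow towards the middle of the block. -/
lemma SBlock.step (hB : SBlock H y R ι) (F : SimpleGraph V) {r s₁ : V} (hs : F.Adj r s₁)
    (x x' xb : Fin (2 * R)) (h1 : (x' : ℕ) = x + 1) (h2 : (xb : ℕ) = x + R)
    (hx : (x' : ℕ) < R) :
    (Emb F H r (ι x)).card + (R - 2).descFactorial (Fintype.card V - 2) ≤
      (Emb F H r (ι x')).card + Fintype.card V ^ 2 * Fintype.card W ^ (Fintype.card V - 3) := by
  have hι := hB.inj
  have hxb := xb.2
  have huv : ι x ≠ ι x' := fun h => by have := congrArg Fin.val (hι h); omega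
  have hub : ι x ≠ ι xb := fun h => by have := congrArg Fin.val (hι h); omega
  have hvb : ι x' ≠ ι xb := fun h => by have := congrArg Fin.val (hι h); omega
  -- neighbourhoods
  have hn1 : ∀ q, H.Adj (ι x) q → q ≠ ι x' → H.Adj (ι x') q := by
    intro q hq hne
    rcases hB.out x q hq with rfl | ⟨z, rfl⟩
    · exact hB.top _
    · rw [hB.adj] at hq ⊢
      refine ⟨fun h => hne (by rw [h]), ?_, ?_⟩
      · have := hq.2; omega
      · have := hq.2; omega
  have hn2 : ∀ q, H.Adj (ι x') q → q ≠ ι x → q ≠ ι xb → H.Adj (ι x) q := by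
    intro q hq hne hne2
    rcases hB.out x' q hq with rfl | ⟨z, rfl⟩
    · exact hB.top _
    · rw [hB.adj] at hq ⊢
      have h3 : (z : ℕ) ≠ xb := fun h => hne2 (by rw [Fin.ext h])
      refine ⟨fun h => hne (by rw [h]), ?_, ?_⟩
      · have := hq.2; omega
      · have := hq.2; omega
  have hnb : ¬ H.Adj (ι x) (ι xb) := by
    rw [hB.adj]; rintro ⟨_, _, h⟩; omega
  -- the exceptional families
  set A := Emb F H r (ι x) with hA
  set A' := Emb F H r (ι x') with hA'
  set Bad := A.filter fun φ => ∃ t s, φ t = ι x' ∧ φ s = ι xb with hBad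
  set Good := A'.filter fun φ => φ s₁ = ι xb with hGood
  have hbad : Bad.card ≤ Fintype.card V ^ 2 * Fintype.card W ^ (Fintype.card V - 3) := by
    refine card_three_le Bad r (ι x) (ι x') (ι xb) huv hub hvb ?_
    intro φ hφ
    rw [hBad, mem_filter, hA, mem_Emb] at hφ
    exact ⟨hφ.1.1, hφ.2⟩
  have hgood : (R - 2).descFactorial (Fintype.card V - 2) ≤ Good.card := by
    obtain ⟨K, hK1, hK2⟩ := exists_interval (W := W) hι (x + 2) (R - 2) (by omega)
    have := le_card_clique F H r {r, s₁} (by simp) (fun a => if a = r then ι x' else ι xb)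
      (injOn_two hvb) K (by
      intro a ha hmem
      obtain ⟨z, hz1, hz2, hz3⟩ := hK2 _ hmem
      split_ifs at hz1 with h
      · have := congrArg Fin.val (hι hz1); omega
      · have := congrArg Fin.val (hι hz1); omega)
      (fun w => ∃ z : Fin (2 * R), ι z = w ∧ (x : ℕ) + 1 ≤ z ∧ (z : ℕ) ≤ x + R) (by
      intro a ha
      split_ifs
      · exact ⟨x', rfl, by omega, by omega⟩
      · exact ⟨xb, rfl, by omega, by omega⟩) (by
      intro w hw
      obtain ⟨z, hz1, hz2, hz3⟩ := hK2 w hw
      exact ⟨z, hz1, by omega, by omega⟩) (by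
      rintro p q ⟨z, rfl, hz2, hz3⟩ ⟨z', rfl, hz2', hz3'⟩ hne
      rw [hB.adj]
      refine ⟨fun h => hne (by rw [h]), ?_, ?_⟩ <;> omega)
    rw [hK1, card_pair hs.ne] at this
    refine this.trans (card_le_card ?_)
    intro φ hφ
    rw [mem_filter] at hφ
    rw [hGood, mem_filter]
    have h3 := hφ.2 s₁ (by simp)
    have h4 : s₁ ≠ r := hs.ne'
    simp only [h4, if_false] at h3
    simp only [if_true] at hφ
    exact ⟨hφ.1, h3⟩
  -- the injection
  have hinj : (A \ Bad).card ≤ (A' \ Good).card := by
    refine card_le_card_of_injOn (fun φ a => Equiv.swap (ι x) (ι x') (φ a)) ?_ ?_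
    · intro φ hφ
      rw [mem_coe, mem_sdiff] at hφ
      obtain ⟨hφA, hφB⟩ := hφ
      have hφA' := hφA
      rw [hA, mem_Emb] at hφA
      obtain ⟨e1, e2, e3⟩ := hφA
      have hnbad : ∀ t s, φ t = ι x' → φ s ≠ ι xb := by
        intro t s ht hs'
        exact hφB (by rw [hBad, mem_filter]; exact ⟨hφA', t, s, ht, hs'⟩)
      have hhom : ∀ a b, F.Adj a b →
          H.Adj (Equiv.swap (ι x) (ι x') (φ a)) (Equiv.swap (ι x) (ι x') (φ b)) := by
        have aux : ∀ a b, F.Adj a b → φ a = ι x ∨ φ a = ι x' →
            H.Adj (Equiv.swap (ι x) (ι x') (φ a)) (Equiv.swap (ι x) (ι x') (φ b)) := by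
          intro a b hab hor
          have hadj := e3 a b hab
          rcases hor with h | h
          · rw [h, Equiv.swap_apply_left]
            by_cases hq : φ b = ι x'
            · rw [hq, Equiv.swap_apply_right]; rw [h, hq] at hadj; exact hadj.symm
            · have hq2 : φ b ≠ ι x := fun h' => by rw [h, h'] at hadj; exact hadj.ne rfl
              rw [Equiv.swap_apply_of_ne_of_ne hq2 hq]
              rw [h] at hadj
              exact hn1 _ hadj hq
          · rw [h, Equiv.swap_apply_right]
            by_cases hq : φ b = ι x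
            · rw [hq, Equiv.swap_apply_left]; rw [h, hq] at hadj; exact hadj.symm
            · have hq2 : φ b ≠ ι x' := fun h' => by rw [h, h'] at hadj; exact hadj.ne rfl
              rw [Equiv.swap_apply_of_ne_of_ne hq hq2]
              rw [h] at hadj
              exact hn2 _ hadj hq (hnbad a b h)
        intro a b hab
        by_cases h3 : φ a = ι x ∨ φ a = ι x'
        · exact aux a b hab h3
        · by_cases h4 : φ b = ι x ∨ φ b = ι x'
          · exact (aux b a hab.symm h4).symm
          · push Not at h3 h4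
            rw [Equiv.swap_apply_of_ne_of_ne h3.1 h3.2, Equiv.swap_apply_of_ne_of_ne h4.1 h4.2]
            exact e3 a b hab
      rw [mem_coe, mem_sdiff]
      constructor
      · rw [hA', mem_Emb]
        exact ⟨by simp [e1], (Equiv.injective _).comp e2, hhom⟩
      · rw [hGood, mem_filter]
        rintro ⟨_, h3⟩
        have h4 : φ s₁ = ι xb := by
          have := congrArg (Equiv.swap (ι x) (ι x')) h3
          rw [Equiv.swap_apply_self, Equiv.swap_apply_of_ne_of_ne hub.symm hvb.symm] at this
          exact this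
        have h5 := e3 r s₁ hs
        rw [e1, h4] at h5
        exact hnb h5
    · intro φ _ φ' _ he
      funext a
      exact (Equiv.injective _) (congrFun he a)
  have e1 : A.card = (A \ Bad).card + Bad.card := by
    rw [card_sdiff_add_card_eq_card (filter_subset _ _)]
  have e2 : A'.card = (A' \ Good).card + Good.card := by
    rw [card_sdiff_add_card_eq_card (filter_subset _ _)]
  omega

/-- Few homomorphisms use a given edge away from the root. -/
lemma card_Use_le (F : SimpleGraph V) (r : V) (v z : W) (hvz : v ≠ z) (hvy : v ≠ y) (hzy : z ≠ y) :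
    (Use F H r v z y).card ≤
      Fintype.card V ^ 2 * Fintype.card W ^ (Fintype.card V - 3) := by
  refine card_three_le _ r v z y hvz hvy hzy ?_
  intro φ hφ
  rw [Use, mem_filter, mem_Emb] at hφ
  obtain ⟨⟨h1, _⟩, t, s, _, h2, h3⟩ := hφ
  exact ⟨h1, t, s, h2, h3⟩

/-- Many homomorphisms with the root at the end of the block use the edge to the apex. -/
lemma SBlock.le_card_Use (hB : SBlock H y R ι) (F : SimpleGraph V) {r s₁ : V} (hs : F.Adj r s₁)
    (x₀ : Fin (2 * R)) (h0 : (x₀ : ℕ) = 0) :
    (R - 1).descFactorial (Fintype.card V - 2) ≤ (Use F H r (ι x₀) (ι x₀) y).card := by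
  have hι := hB.inj
  have hx0 := x₀.2
  obtain ⟨K, hK1, hK2⟩ := exists_interval (W := W) hι 1 (R - 1) (by omega)
  have := le_card_clique F H r {r, s₁} (by simp) (fun a => if a = r then ι x₀ else y)
    (injOn_two (hB.ny x₀)) K (by
    intro a ha hmem
    obtain ⟨z, hz1, hz2, hz3⟩ := hK2 _ hmem
    split_ifs at hz1 with h
    · have := congrArg Fin.val (hι hz1); omega
    · exact hB.ny z hz1)
    (fun w => w = y ∨ ∃ z : Fin (2 * R), ι z = w ∧ (z : ℕ) < R) (by
    intro a ha
    split_ifs
    · exact Or.inr ⟨x₀, rfl, by omega⟩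
    · exact Or.inl rfl) (by
    intro w hw
    obtain ⟨z, hz1, hz2, hz3⟩ := hK2 w hw
    exact Or.inr ⟨z, hz1, by omega⟩) (by
    rintro p q (rfl | ⟨z, rfl, hz⟩) (rfl | ⟨z', rfl, hz'⟩) hne
    · exact absurd rfl hne
    · exact (hB.top _).symm
    · exact hB.top _
    · rw [hB.adj]
      refine ⟨fun h => hne (by rw [h]), ?_, ?_⟩ <;> omega)
  rw [hK1, card_pair hs.ne] at this
  refine this.trans (card_le_card ?_)
  intro φ hφ
  rw [mem_filter] at hφ
  have h3 := hφ.2 s₁ (by simp)
  have h4 : s₁ ≠ r := hs.ne'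
  simp only [h4, if_false] at h3
  simp only [if_true] at hφ
  rw [Use, mem_filter]
  exact ⟨hφ.1, r, s₁, hs, (mem_Emb.1 hφ.1).1, h3⟩

end Pool.Agent.Q274.FI
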