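import Pool.Agent.Q274.FI.Inj

/-!
# Comparison of the two blocks and the apex
-/

set_option autoImplicit false

open Finset

namespace Pool.Agent.Q274.FI

open scoped Classical

variable {V W : Type} [Fintype V] [Fintype W]

variable {G : SimpleGraph W} {y : W} {R : ℕ} {ι : Fin (2 * R) → W}

omit [Fintype V] [Fintype W] in
/-- A connected graph mapped into the graph without meeting the apex stays in the block. -/
lemma Block.image (hG : Block G y R ι) {F : SimpleGraph V} (hF : F.Connected) {φ : V → W}
    (hhom : ∀ a b, F.Adj a b → G.Adj (φ a) (φ b)) (hy : ∀ a, φ a ≠ y) {r : V}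
    (hr : ∃ x, ι x = φ r) (a : V) : ∃ x, ι x = φ a := by
  obtain ⟨p⟩ := hF.preconnected r a
  induction p with
  | nil => exact hr
  | cons h _ ih =>
    apply ih
    obtain ⟨x, hx⟩ := hr
    have h1 := hhom _ _ h
    rw [← hx] at h1
    exact (hG.out x _ h1).resolve_left (hy _)

lemma Block.le_card (hG : Block G y R ι) (F : SimpleGraph V) (r : V) (x : Fin (2 * R)) :
    (R - 1).descFactorial (Fintype.card V - 1) ≤ (Emb F G r (ι x)).card := by
  have hι := hG.inj
  have hx := x.2
  -- the start of a clique that contains `x`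
  obtain ⟨a, ha1, ha2, ha3⟩ : ∃ a : ℕ, a ≤ x ∧ (x : ℕ) < a + R ∧ a + R ≤ 2 * R := by
    by_cases h : (x : ℕ) < R
    · exact ⟨0, by omega, by omega, by omega⟩
    · exact ⟨R, by omega, by omega, by omega⟩
  obtain ⟨K, hK1, hK2⟩ := exists_interval (W := W) hι a R ha3
  have := le_card_clique F G r {r} (by simp) (fun _ => ι x) (by simp) (K.erase (ι x)) (by simp)
    (fun w => ∃ z : Fin (2 * R), ι z = w ∧ a ≤ (z : ℕ) ∧ (z : ℕ) < a + R) (by
    intro b _
    exact ⟨x, rfl, ha1, ha2⟩) (by
    intro w hw
    exact hK2 w (mem_of_mem_erase hw)) (by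
    rintro p q ⟨z, rfl, hz2, hz3⟩ ⟨z', rfl, hz2', hz3'⟩ hne
    rw [hG.adj]
    refine ⟨fun h => hne (by rw [h]), ?_, ?_⟩ <;> omega)
  rw [card_singleton] at this
  have h1 : R - 1 ≤ (K.erase (ι x)).card := by
    have := Finset.pred_card_le_card_erase (s := K) (a := ι x)
    omega
  exact (Nat.descFactorial_le _ h1).trans (this.trans (card_le_card (filter_subset _ _)))

lemma Block.card_le (hG : Block G y R ι) {F : SimpleGraph V} (hF : F.Connected) (r : V)
    (x : Fin (2 * R)) :
    (Emb F G r (ι x)).card ≤ (2 * R) ^ (Fintype.card V - 1) +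
      Fintype.card V * Fintype.card W ^ (Fintype.card V - 2) := by
  have h1 : ((Emb F G r (ι x)).filter fun φ => ∃ t, φ t = y).card ≤
      Fintype.card V * Fintype.card W ^ (Fintype.card V - 2) := by
    refine card_two_le _ r (ι x) y (hG.ny x) ?_
    intro φ hφ
    rw [mem_filter, mem_Emb] at hφ
    exact ⟨hφ.1.1, hφ.2⟩
  have h2 : ((Emb F G r (ι x)).filter fun φ => ¬ ∃ t, φ t = y).card ≤
      (2 * R) ^ (Fintype.card V - 1) := by
    have h3 : Fintype.card ({a // a ≠ r} → Fin (2 * R)) = (2 * R) ^ (Fintype.card V - 1) := by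
      rw [Fintype.card_fun, Fintype.card_fin]
      congr 1
      rw [Fintype.card_subtype_compl]
      simp
    rw [← h3, ← Finset.card_univ]
    have hmem : ∀ φ ∈ (Emb F G r (ι x)).filter (fun φ => ¬ ∃ t, φ t = y), φ r = ι x ∧
        ∀ a, ∃ z, ι z = φ a := by
      intro φ hφ
      rw [mem_filter, mem_Emb] at hφ
      refine ⟨hφ.1.1, hG.image hF hφ.1.2.2 (fun a h => hφ.2 ⟨a, h⟩) (r := r) ⟨x, hφ.1.1.symm⟩⟩
    refine card_le_card_of_injOn (fun φ a => if h : ∃ z, ι z = φ a then h.choose else x)
      (by simp) ?_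
    intro φ hφ φ' hφ' he
    rw [mem_coe] at hφ hφ'
    obtain ⟨e1, e2⟩ := hmem φ hφ
    obtain ⟨e1', e2'⟩ := hmem φ' hφ'
    funext a
    by_cases ha : a = r
    · rw [ha, e1, e1']
    · have h4 := congrFun he ⟨a, ha⟩
      simp only [dif_pos (e2 a), dif_pos (e2' a)] at h4
      rw [← (e2 a).choose_spec, ← (e2' a).choose_spec, h4]
  have h5 := card_filter_add_card_filter_not (s := Emb F G r (ι x)) (fun φ => ∃ t, φ t = y)
  omega

/-- Many embeddings with the root at the apex and everything else in the block. -/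
lemma Block.le_card_apex (hG : Block G y R ι) (hR : 0 < R) (F : SimpleGraph V) (r : V) :
    R.descFactorial (Fintype.card V - 1) ≤
      ((Emb F G r y).filter fun φ => ∀ a, a ≠ r → ∃ z, ι z = φ a).card := by
  have hι := hG.inj
  obtain ⟨K, hK1, hK2⟩ := exists_interval (W := W) hι 1 R (by omega)
  have := le_card_ext ({r} : Finset V) (fun _ => y) (by simp) K (by
    intro a _ hmem
    obtain ⟨z, hz, _⟩ := hK2 _ hmem
    exact hG.ny z hz) ((Emb F G r y).filter fun φ => ∀ a, a ≠ r → ∃ z, ι z = φ a) (by
    intro φ hinj h1 h2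
    have h3 : φ r = y := h1 r (by simp)
    have h4 : ∀ a, a ≠ r → ∃ z : Fin (2 * R), ι z = φ a ∧ 1 ≤ (z : ℕ) ∧ (z : ℕ) < 1 + R := by
      intro a ha
      exact hK2 _ (h2 a (by simpa using ha))
    rw [mem_filter, mem_Emb]
    refine ⟨⟨h3, hinj, fun a b hab => ?_⟩, fun a ha => ?_⟩
    · by_cases ha : a = r
      · have hb : b ≠ r := fun h => hab.ne (by rw [ha, h])
        obtain ⟨z, hz1, hz2, hz3⟩ := h4 b hb
        rw [ha, h3, ← hz1]
        exact ((hG.top _).2 (by omega)).symm
      · obtain ⟨z, hz1, hz2, hz3⟩ := h4 a ha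
        by_cases hb : b = r
        · rw [hb, h3, ← hz1]
          exact (hG.top _).2 (by omega)
        · obtain ⟨z', hz1', hz2', hz3'⟩ := h4 b hb
          rw [← hz1, ← hz1', hG.adj]
          refine ⟨fun h => hab.ne (hinj ?_), ?_, ?_⟩
          · rw [← hz1, ← hz1', h]
          · omega
          · omega
    · obtain ⟨z, hz, _⟩ := h4 a ha
      exact ⟨z, hz⟩)
  rwa [card_singleton, hK1] at this

/-- Moving the root to the apex. -/
lemma Block.card_le_apex (hG : Block G y R ι) {F : SimpleGraph V} (hF : F.Connected) (r : V)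
    (x : Fin (2 * R)) :
    (Emb F G r (ι x)).card ≤
      ((Emb F G r y).filter fun φ => ∀ a, a ≠ r → ∃ z, ι z = φ a).card +
      2 * (Fintype.card V * Fintype.card W ^ (Fintype.card V - 2)) := by
  have hι := hG.inj
  have hpos : 0 < 2 * R := by have := x.2; omega
  set x₀ : Fin (2 * R) := ⟨0, hpos⟩ with hx₀
  set A := Emb F G r (ι x) with hA
  set B1 := A.filter fun φ => ∃ t, φ t = y with hB1
  set B2 := A.filter fun φ => ∃ t, t ≠ r ∧ φ t = ι x₀ with hB2
  have h1 : B1.card ≤ Fintype.card V * Fintype.card W ^ (Fintype.card V - 2) := by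
    refine card_two_le _ r (ι x) y (hG.ny x) ?_
    intro φ hφ
    rw [hB1, mem_filter, hA, mem_Emb] at hφ
    exact ⟨hφ.1.1, hφ.2⟩
  have h2 : B2.card ≤ Fintype.card V * Fintype.card W ^ (Fintype.card V - 2) := by
    by_cases hx : x = x₀
    · have : B2 = ∅ := by
        rw [hB2, filter_eq_empty_iff]
        rintro φ hφ ⟨t, ht, hφt⟩
        rw [hA, mem_Emb] at hφ
        apply ht
        apply hφ.2.1
        rw [hφt, hφ.1, hx]
      rw [this]; simp
    · refine card_two_le _ r (ι x) (ι x₀) (fun h => hx (hι h)) ?_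
      intro φ hφ
      rw [hB2, mem_filter, hA, mem_Emb] at hφ
      obtain ⟨t, _, ht⟩ := hφ.2
      exact ⟨hφ.1.1, t, ht⟩
  have h3 : (A \ (B1 ∪ B2)).card ≤
      ((Emb F G r y).filter fun φ => ∀ a, a ≠ r → ∃ z, ι z = φ a).card := by
    refine card_le_card_of_injOn (fun φ => Function.update φ r y) ?_ ?_
    · intro φ hφ
      rw [mem_coe, mem_sdiff, mem_union] at hφ
      obtain ⟨hφA, hφB⟩ := hφ
      have hφA' := hφA
      rw [hA, mem_Emb] at hφA
      obtain ⟨e1, e2, e3⟩ := hφA
      have hny : ∀ a, φ a ≠ y := fun a h => hφB (Or.inl (by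
        rw [hB1, mem_filter]; exact ⟨hφA', a, h⟩))
      have hn0 : ∀ a, a ≠ r → φ a ≠ ι x₀ := fun a ha h => hφB (Or.inr (by
        rw [hB2, mem_filter]; exact ⟨hφA', a, ha, h⟩))
      have him := hG.image hF e3 hny (r := r) ⟨x, e1.symm⟩
      have htop : ∀ a, a ≠ r → G.Adj y (φ a) := by
        intro a ha
        obtain ⟨z, hz⟩ := him a
        rw [← hz]
        refine ((hG.top z).2 ?_).symm
        intro h
        apply hn0 a ha
        rw [← hz]
        congr 1
        exact Fin.ext h
      rw [mem_coe, mem_filter, mem_Emb]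
      refine ⟨⟨by simp, ?_, ?_⟩, ?_⟩
      · intro a b hab
        change Function.update φ r y a = Function.update φ r y b at hab
        by_cases ha : a = r <;> by_cases hb : b = r
        · rw [ha, hb]
        · rw [ha, Function.update_self, Function.update_of_ne hb] at hab
          exact absurd hab.symm (hny b)
        · rw [hb, Function.update_self, Function.update_of_ne ha] at hab
          exact absurd hab (hny a)
        · rw [Function.update_of_ne hb, Function.update_of_ne ha] at hab
          exact e2 hab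
      · intro a b hab
        show G.Adj (Function.update φ r y a) (Function.update φ r y b)
        by_cases ha : a = r <;> by_cases hb : b = r
        · exact absurd (ha.trans hb.symm) hab.ne
        · rw [ha, Function.update_self, Function.update_of_ne hb]
          exact htop b hb
        · rw [hb, Function.update_self, Function.update_of_ne ha]
          exact (htop a ha).symm
        · rw [Function.update_of_ne hb, Function.update_of_ne ha]
          exact e3 a b hab
      · intro a ha
        show ∃ z, ι z = Function.update φ r y a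
        rw [Function.update_of_ne ha]
        exact him a
    · intro φ hφ φ' hφ' he
      rw [mem_coe, mem_sdiff, hA, mem_Emb] at hφ hφ'
      funext a
      by_cases ha : a = r
      · rw [ha, hφ.1.1, hφ'.1.1]
      · have := congrFun he a
        change Function.update φ r y a = Function.update φ' r y a at this
        rwa [Function.update_of_ne ha, Function.update_of_ne ha] at this
  have h4 : A.card ≤ (A \ (B1 ∪ B2)).card + (B1 ∪ B2).card := by
    have h5 : (B1 ∪ B2) ⊆ A := by
      intro φ hφ
      rw [mem_union, hB1, hB2, mem_filter, mem_filter] at hφ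
      rcases hφ with h | h
      · exact h.1
      · exact h.1
    rw [card_sdiff_add_card_eq_card h5]
  have h5 : (B1 ∪ B2).card ≤ B1.card + B2.card := card_union_le _ _
  omega

/-- Two blocks of different sizes with a common apex. -/
structure TwoBlocks (G : SimpleGraph W) (y : W) (L : ℕ) (ι : Fin (2 * (16 * L)) → W)
    (κ : Fin (2 * (2 * L)) → W) : Prop where
  P : Block G y (16 * L) ι
  Q : Block G y (2 * L) κ
  ne : ∀ x x', ι x ≠ κ x'
  all : ∀ w, w = y ∨ (∃ x, ι x = w) ∨ ∃ x, κ x = w

lemma TwoBlocks.card {L : ℕ} {ι : Fin (2 * (16 * L)) → W} {κ : Fin (2 * (2 * L)) → W}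
    (hT : TwoBlocks G y L ι κ) : Fintype.card W = 36 * L + 1 := by
  have h1 : Function.Bijective (fun o : Option (Fin (2 * (16 * L)) ⊕ Fin (2 * (2 * L))) =>
      match o with
      | none => y
      | some (Sum.inl x) => ι x
      | some (Sum.inr x) => κ x) := by
    constructor
    · rintro (_ | x | x) (_ | x' | x') h
      · rfl
      · exact absurd h.symm (hT.P.ny _)
      · exact absurd h.symm (hT.Q.ny _)
      · exact absurd h (hT.P.ny _)
      · have := hT.P.inj h; rw [this]
      · exact absurd h (hT.ne _ _)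
      · exact absurd h (hT.Q.ny _)
      · exact absurd h.symm (hT.ne _ _)
      · have := hT.Q.inj h; rw [this]
    · intro w
      rcases hT.all w with rfl | ⟨x, rfl⟩ | ⟨x, rfl⟩
      · exact ⟨none, rfl⟩
      · exact ⟨some (Sum.inl x), rfl⟩
      · exact ⟨some (Sum.inr x), rfl⟩
  rw [← Fintype.card_of_bijective h1, Fintype.card_option, Fintype.card_sum, Fintype.card_fin,
    Fintype.card_fin]
  ring

end Pool.Agent.Q274.FI
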