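import Pool.Agent.Q274.FI.Main
import Pool.Agent.Q274.FI.Deg

/-!
# The number of copies through a vertex
-/

set_option autoImplicit false

open Finset

namespace Pool.Agent.Q274.FI

open scoped Classical

/-- The `F`-degree of `v` in `G`: the number of subgraphs of `G` that contain `v` and are
isomorphic to `F`. -/
noncomputable def copyDegree {V W : Type} (F : SimpleGraph V) (G : SimpleGraph W) (v : W) : ℕ :=
  {H : G.Subgraph | v ∈ H.verts ∧ Nonempty (F ≃g H.coe)}.ncard

variable {V W : Type} [Fintype V] [Fintype W]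

/-- The injective homomorphisms whose image contains `v`. -/
noncomputable def EmbC (F : SimpleGraph V) (G : SimpleGraph W) (v : W) : Finset (V → W) :=
  univ.filter fun φ => (∃ a, φ a = v) ∧ Function.Injective φ ∧ ∀ a b, F.Adj a b → G.Adj (φ a) (φ b)

lemma mem_EmbC {F : SimpleGraph V} {G : SimpleGraph W} {v : W} {φ : V → W} :
    φ ∈ EmbC F G v ↔
      (∃ a, φ a = v) ∧ Function.Injective φ ∧ ∀ a b, F.Adj a b → G.Adj (φ a) (φ b) := by
  simp [EmbC]

lemma card_EmbC (F : SimpleGraph V) (G : SimpleGraph W) (v : W) :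
    (EmbC F G v).card = ∑ r, (Emb F G r v).card := by
  have h1 : EmbC F G v = univ.biUnion fun r => Emb F G r v := by
    ext φ
    simp only [mem_EmbC, mem_biUnion, mem_univ, true_and, mem_Emb]
    constructor
    · rintro ⟨⟨a, ha⟩, h⟩
      exact ⟨a, ha, h⟩
    · rintro ⟨a, ha, h⟩
      exact ⟨⟨a, ha⟩, h⟩
  rw [h1, card_biUnion]
  intro r _ r' _ hne
  rw [Function.onFun, Finset.disjoint_left]
  intro φ h2 h3
  rw [mem_Emb] at h2 h3
  exact hne (h2.2.1 (h2.1.trans h3.1.symm))

theorem card_EmbC_eq (F : SimpleGraph V) (G : SimpleGraph W) (v : W) :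
    (EmbC F G v).card = copyDegree F G v * Nat.card (F ≃g F) := by
  set S := {H : G.Subgraph | v ∈ H.verts ∧ Nonempty (F ≃g H.coe)} with hS
  have h1 : (EmbC F G v).card = Nat.card {φ // φ ∈ EmbC F G v} := by
    rw [Nat.card_eq_fintype_card, Fintype.card_coe]
  have h2 : copyDegree F G v = Nat.card S := rfl
  rw [h1, h2, ← Nat.card_prod]
  symm
  have hmem : ∀ (H : G.Subgraph) (χ : F ≃g H.coe), v ∈ H.verts →
      (fun a => (χ a : W)) ∈ EmbC F G v := by
    intro H χ hχ
    rw [mem_EmbC]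
    refine ⟨⟨χ.symm ⟨v, hχ⟩, by rw [χ.apply_symm_apply]⟩,
      fun a b hab => χ.injective (Subtype.ext hab), fun a b hab => ?_⟩
    exact H.adj_sub (χ.map_adj_iff.2 hab)
  refine Nat.card_eq_of_bijective (fun p : S × (F ≃g F) =>
    (⟨fun a => (((p.2.trans p.1.2.2.some) a : _) : W),
      hmem _ (p.2.trans p.1.2.2.some) p.1.2.1⟩ : {φ // φ ∈ EmbC F G v})) ⟨?_, ?_⟩
  · rintro ⟨H, ψ⟩ ⟨H', ψ'⟩ h
    have h3 : ∀ a, ((ψ.trans H.2.2.some) a : W) = (ψ'.trans H'.2.2.some) a := by
      intro a
      exact congrFun (congrArg Subtype.val h) a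
    have h4 : (H : G.Subgraph) = H' := sub_ext _ _ h3
    have h5 : H = H' := Subtype.ext h4
    subst h5
    congr 1
    ext a
    have h6 := h3 a
    exact H.2.2.some.injective (Subtype.ext h6)
  · rintro ⟨φ, hφ⟩
    have hφ' := mem_EmbC.1 hφ
    obtain ⟨⟨a₀, e1⟩, e2, e3⟩ := hφ'
    have hHS : imageSub φ e3 ∈ S := ⟨⟨a₀, e1⟩, ⟨isoImage φ e3 e2⟩⟩
    set χ : F ≃g (imageSub φ e3).coe := hHS.2.some with hχ
    refine ⟨⟨⟨imageSub φ e3, hHS⟩, (isoImage φ e3 e2).trans χ.symm⟩, ?_⟩
    apply Subtype.ext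
    funext a
    show ((χ (χ.symm (isoImage φ e3 e2 a)) : _) : W) = φ a
    rw [χ.apply_symm_apply]
    rfl

theorem EmbC_card_eq_of_degree {F : SimpleGraph V} {G : SimpleGraph W} {u v : W}
    (h : copyDegree F G u = copyDegree F G v) : (EmbC F G u).card = (EmbC F G v).card := by
  rw [card_EmbC_eq, card_EmbC_eq, h]

variable {H : SimpleGraph W} {y : W} {R : ℕ} {ι : Fin (2 * R) → W}

/-- The numbers of copies grow towards the middle of the block. -/
lemma SBlock.stepC (hB : SBlock H y R ι) (F : SimpleGraph V) {a₀ b₀ : V} (hs : F.Adj a₀ b₀)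
    (x x' xb : Fin (2 * R)) (h1 : (x' : ℕ) = x + 1) (h2 : (xb : ℕ) = x + R)
    (hx : (x' : ℕ) < R) :
    (EmbC F H (ι x)).card + (R - 2).descFactorial (Fintype.card V - 2) ≤
      (EmbC F H (ι x')).card := by
  have hι := hB.inj
  have hxb := xb.2
  have huv : ι x ≠ ι x' := fun h => by have := congrArg Fin.val (hι h); omega
  have hub : ι x ≠ ι xb := fun h => by have := congrArg Fin.val (hι h); omega
  have hvb : ι x' ≠ ι xb := fun h => by have := congrArg Fin.val (hι h); omega
  have hn1 : ∀ q, H.Adj (ι x) q → q ≠ ι x' → H.Adj (ι x') q := by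
    intro q hq hne
    rcases hB.out x q hq with rfl | ⟨z, rfl⟩
    · exact hB.top _
    · rw [hB.adj] at hq ⊢
      refine ⟨fun h => hne (by rw [h]), ?_, ?_⟩
      · have := hq.2; omega
      · have := hq.2; omega
  have hnb : ¬ H.Adj (ι x) (ι xb) := by
    rw [hB.adj]; rintro ⟨_, _, h⟩; omega
  set A := EmbC F H (ι x) with hA
  set A' := EmbC F H (ι x') with hA'
  set Good := (A' \ A).filter fun φ => φ a₀ = ι x' ∧ φ b₀ = ι xb with hGood
  have hgood : (R - 2).descFactorial (Fintype.card V - 2) ≤ Good.card := by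
    obtain ⟨K, hK1, hK2⟩ := exists_interval (W := W) hι (x + 2) (R - 2) (by omega)
    have := le_card_ext ({a₀, b₀} : Finset V) (fun a => if a = a₀ then ι x' else ι xb)
      (injOn_two hvb) K (by
      intro a ha hmem
      obtain ⟨z, hz1, hz2, hz3⟩ := hK2 _ hmem
      split_ifs at hz1 with h
      · have := congrArg Fin.val (hι hz1); omega
      · have := congrArg Fin.val (hι hz1); omega) Good (by
      intro φ hinj h3 h4
      have e1 : φ a₀ = ι x' := by
        have := h3 a₀ (by simp)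
        simpa using this
      have e2 : φ b₀ = ι xb := by
        have := h3 b₀ (by simp)
        simpa [hs.ne'] using this
      have h5 : ∀ a, ∃ z : Fin (2 * R), ι z = φ a ∧ (x : ℕ) + 1 ≤ z ∧ (z : ℕ) ≤ x + R := by
        intro a
        by_cases ha : a = a₀
        · exact ⟨x', by rw [ha, e1], by omega, by omega⟩
        by_cases hb : a = b₀
        · exact ⟨xb, by rw [hb, e2], by omega, by omega⟩
        obtain ⟨z, hz1, hz2, hz3⟩ := hK2 _ (h4 a (by simp [ha, hb]))
        exact ⟨z, hz1, by omega, by omega⟩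
      rw [hGood, mem_filter, mem_sdiff, hA', hA, mem_EmbC, mem_EmbC]
      refine ⟨⟨⟨⟨a₀, e1⟩, hinj, fun a b hab => ?_⟩, ?_⟩, e1, e2⟩
      · obtain ⟨z, hz1, hz2, hz3⟩ := h5 a
        obtain ⟨z', hz1', hz2', hz3'⟩ := h5 b
        rw [← hz1, ← hz1', hB.adj]
        refine ⟨fun h => hab.ne (hinj ?_), ?_, ?_⟩
        · rw [← hz1, ← hz1', h]
        · omega
        · omega
      · rintro ⟨⟨a, ha⟩, _⟩
        obtain ⟨z, hz1, hz2, hz3⟩ := h5 a
        rw [ha] at hz1
        have := congrArg Fin.val (hι hz1)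
        omega)
    rwa [hK1, card_pair hs.ne] at this
  have hinj : (A \ A').card ≤ ((A' \ A) \ Good).card := by
    refine card_le_card_of_injOn (fun φ a => Equiv.swap (ι x) (ι x') (φ a)) ?_ ?_
    · intro φ hφ
      rw [mem_coe, mem_sdiff, hA, hA', mem_EmbC, mem_EmbC] at hφ
      obtain ⟨⟨⟨a, e1⟩, e2, e3⟩, hφ'⟩ := hφ
      have hn : ∀ b, φ b ≠ ι x' := fun b hb => hφ' ⟨⟨b, hb⟩, e2, e3⟩
      have hhom : ∀ a b, F.Adj a b →
          H.Adj (Equiv.swap (ι x) (ι x') (φ a)) (Equiv.swap (ι x) (ι x') (φ b)) := by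
        have aux : ∀ a b, F.Adj a b → φ a = ι x →
            H.Adj (Equiv.swap (ι x) (ι x') (φ a)) (Equiv.swap (ι x) (ι x') (φ b)) := by
          intro a b hab h
          have hadj := e3 a b hab
          rw [h, Equiv.swap_apply_left]
          have hq2 : φ b ≠ ι x := fun h' => by rw [h, h'] at hadj; exact hadj.ne rfl
          rw [Equiv.swap_apply_of_ne_of_ne hq2 (hn b)]
          rw [h] at hadj
          exact hn1 _ hadj (hn b)
        intro a b hab
        by_cases h3 : φ a = ι x
        · exact aux a b hab h3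
        · by_cases h4 : φ b = ι x
          · exact (aux b a hab.symm h4).symm
          · rw [Equiv.swap_apply_of_ne_of_ne h3 (hn a), Equiv.swap_apply_of_ne_of_ne h4 (hn b)]
            exact e3 a b hab
      rw [mem_coe, mem_sdiff, mem_sdiff, hA', hA, mem_EmbC, mem_EmbC]
      refine ⟨⟨⟨⟨a, ?_⟩, (Equiv.injective _).comp e2, hhom⟩, ?_⟩, ?_⟩
      · show Equiv.swap (ι x) (ι x') (φ a) = ι x'
        rw [e1, Equiv.swap_apply_left]
      · rintro ⟨⟨b, hb⟩, _⟩
        have hb' : Equiv.swap (ι x) (ι x') (φ b) = ι x := hb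
        have h4 : φ b = ι x' := by
          have := congrArg (Equiv.swap (ι x) (ι x')) hb'
          rwa [Equiv.swap_apply_self, Equiv.swap_apply_left] at this
        exact hn b h4
      · rw [hGood, mem_filter]
        rintro ⟨_, h3, h4⟩
        have h3' : Equiv.swap (ι x) (ι x') (φ a₀) = ι x' := h3
        have h4' : Equiv.swap (ι x) (ι x') (φ b₀) = ι xb := h4
        have h5 : φ a₀ = ι x := by
          have := congrArg (Equiv.swap (ι x) (ι x')) h3'
          rwa [Equiv.swap_apply_self, Equiv.swap_apply_right] at this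
        have h6 : φ b₀ = ι xb := by
          have := congrArg (Equiv.swap (ι x) (ι x')) h4'
          rwa [Equiv.swap_apply_self, Equiv.swap_apply_of_ne_of_ne hub.symm hvb.symm] at this
        have h7 := e3 a₀ b₀ hs
        rw [h5, h6] at h7
        exact hnb h7
    · intro φ _ φ' _ he
      funext a
      exact (Equiv.injective _) (congrFun he a)
  have e1 : A.card = (A \ A').card + (A ∩ A').card := (card_sdiff_add_card_inter A A').symm
  have e2 : A'.card = (A' \ A).card + (A' ∩ A).card := (card_sdiff_add_card_inter A' A).symm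
  have e3 : (A' \ A).card = ((A' \ A) \ Good).card + Good.card := by
    rw [card_sdiff_add_card_eq_card (filter_subset _ _)]
  rw [inter_comm A' A] at e2
  omega

end Pool.Agent.Q274.FI
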