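import Pool.Agent.Q274.FI.UBasic

/-!
# Comparison of the blocks and the apex for arbitrary graphs
-/

set_option autoImplicit false

open Finset

namespace Pool.Agent.Q274.FI

open scoped Classical

variable {V W : Type} [Fintype V] [Fintype W]

variable {G : SimpleGraph W} {y : W} {R S : ℕ} {ι : Fin (2 * R) → W} {κ : Fin (2 * S) → W}

/-- Moving the root to the apex, without assumptions on `F`. -/
lemma Block.card_le_apex' (hG : Block G y R ι) (F : SimpleGraph V) (r : V) (x : Fin (2 * R)) :
    (Emb F G r (ι x)).card ≤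
      ((Emb F G r y).filter fun φ => ∀ b, F.Adj r b → ∃ z, ι z = φ b).card +
      2 * (Fintype.card V * Fintype.card W ^ (Fintype.card V - 2)) := by
  have hι := hG.inj
  have hpos : 0 < 2 * R := by have := x.2; omega
  set x₀ : Fin (2 * R) := ⟨0, hpos⟩ with hx₀
  set A := Emb F G r (ι x) with hA
  set B1 := A.filter fun φ => ∃ t, φ t = y with hB1
  set B2 := A.filter fun φ => ∃ t, t ≠ r ∧ φ t = ι x₀ with hB2
  have h1 : B1.card ≤ Fintype.card V * Fintype.card W ^ (Fintype.card V - 2) := by
    refine card_two_le _ r (ι x) y (hG.ny x) ?_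
    intro φ hφ
    rw [hB1, mem_filter, hA, mem_Emb] at hφ
    exact ⟨hφ.1.1, hφ.2⟩
  have h2 : B2.card ≤ Fintype.card V * Fintype.card W ^ (Fintype.card V - 2) := by
    by_cases hx : x = x₀
    · have : B2 = ∅ := by
        rw [hB2, filter_eq_empty_iff]
        rintro φ hφ ⟨t, ht, hφt⟩
        rw [hA, mem_Emb] at hφ
        apply ht
        apply hφ.2.1
        rw [hφt, hφ.1, hx]
      rw [this]; simp
    · refine card_two_le _ r (ι x) (ι x₀) (fun h => hx (hι h)) ?_
      intro φ hφ
      rw [hB2, mem_filter, hA, mem_Emb] at hφ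
      obtain ⟨t, _, ht⟩ := hφ.2
      exact ⟨hφ.1.1, t, ht⟩
  have h3 : (A \ (B1 ∪ B2)).card ≤
      ((Emb F G r y).filter fun φ => ∀ b, F.Adj r b → ∃ z, ι z = φ b).card := by
    refine card_le_card_of_injOn (fun φ => Function.update φ r y) ?_ ?_
    · intro φ hφ
      rw [mem_coe, mem_sdiff, mem_union] at hφ
      obtain ⟨hφA, hφB⟩ := hφ
      have hφA' := hφA
      rw [hA, mem_Emb] at hφA
      obtain ⟨e1, e2, e3⟩ := hφA
      have hny : ∀ a, φ a ≠ y := fun a h => hφB (Or.inl (by
        rw [hB1, mem_filter]; exact ⟨hφA', a, h⟩))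
      have hn0 : ∀ a, a ≠ r → φ a ≠ ι x₀ := fun a ha h => hφB (Or.inr (by
        rw [hB2, mem_filter]; exact ⟨hφA', a, ha, h⟩))
      have him : ∀ b, F.Adj r b → ∃ z, ι z = φ b := by
        intro b hb
        have h4 := e3 r b hb
        rw [e1] at h4
        exact (hG.out x _ h4).resolve_left (hny b)
      have htop : ∀ b, F.Adj r b → G.Adj y (φ b) := by
        intro b hb
        obtain ⟨z, hz⟩ := him b hb
        rw [← hz]
        refine ((hG.top z).2 ?_).symm
        intro h
        apply hn0 b hb.ne'
        rw [← hz]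
        congr 1
        exact Fin.ext h
      rw [mem_coe, mem_filter, mem_Emb]
      refine ⟨⟨by simp, ?_, ?_⟩, ?_⟩
      · intro a b hab
        change Function.update φ r y a = Function.update φ r y b at hab
        by_cases ha : a = r <;> by_cases hb : b = r
        · rw [ha, hb]
        · rw [ha, Function.update_self, Function.update_of_ne hb] at hab
          exact absurd hab.symm (hny b)
        · rw [hb, Function.update_self, Function.update_of_ne ha] at hab
          exact absurd hab (hny a)
        · rw [Function.update_of_ne hb, Function.update_of_ne ha] at hab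
          exact e2 hab
      · intro a b hab
        show G.Adj (Function.update φ r y a) (Function.update φ r y b)
        by_cases ha : a = r <;> by_cases hb : b = r
        · exact absurd (ha.trans hb.symm) hab.ne
        · rw [ha, Function.update_self, Function.update_of_ne hb]
          exact htop b (ha ▸ hab)
        · rw [hb, Function.update_self, Function.update_of_ne ha]
          exact (htop a (hb ▸ hab.symm)).symm
        · rw [Function.update_of_ne hb, Function.update_of_ne ha]
          exact e3 a b hab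
      · intro b hb
        show ∃ z, ι z = Function.update φ r y b
        rw [Function.update_of_ne hb.ne']
        exact him b hb
    · intro φ hφ φ' hφ' he
      rw [mem_coe, mem_sdiff, hA, mem_Emb] at hφ hφ'
      funext a
      by_cases ha : a = r
      · rw [ha, hφ.1.1, hφ'.1.1]
      · have := congrFun he a
        change Function.update φ r y a = Function.update φ' r y a at this
        rwa [Function.update_of_ne ha, Function.update_of_ne ha] at this
  have h4 : A.card ≤ (A \ (B1 ∪ B2)).card + (B1 ∪ B2).card := by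
    have h5 : (B1 ∪ B2) ⊆ A := by
      intro φ hφ
      rw [mem_union, hB1, hB2, mem_filter, mem_filter] at hφ
      rcases hφ with h | h
      · exact h.1
      · exact h.1
    rw [card_sdiff_add_card_eq_card h5]
  have h5 : (B1 ∪ B2).card ≤ B1.card + B2.card := card_union_le _ _
  omega

/-- Moving the component of the root from the small block to the large block. -/
lemma Block.cross (hP : Block G y R ι) (hQ : Block G y S κ)
    (hSR : 2 * S ≤ R) (F : SimpleGraph V) (r : V) (x : Fin (2 * R)) (x' : Fin (2 * S)) :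
    ∃ Λ : Finset W, Λ.card ≤ 2 * S ∧
      (Emb F G r (κ x')).card +
        ((Emb F G r (ι x)).filter fun φ => ∃ b, F.Adj r b ∧ φ b ∉ Λ).card ≤
      (Emb F G r (ι x)).card + (Fintype.card V * Fintype.card W ^ (Fintype.card V - 2) +
        Fintype.card V ^ 2 * Fintype.card W ^ (Fintype.card V - 2)) := by
  have hι := hP.inj
  have hκ := hQ.inj
  have hx := x.2
  have hx' := x'.2
  obtain ⟨a₀, ha1, ha2, ha3⟩ : ∃ a : ℕ, a ≤ x ∧ (x : ℕ) < a + R ∧ a + R ≤ 2 * R := by
    by_cases h : (x : ℕ) < R
    · exact ⟨0, by omega, by omega, by omega⟩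
    · exact ⟨R, by omega, by omega, by omega⟩
  set g₀ : Fin (2 * S) → Fin (2 * R) := fun z => ⟨a₀ + z, by have := z.2; omega⟩ with hg₀
  set g : Fin (2 * S) → Fin (2 * R) := fun z => Equiv.swap (g₀ x') x (g₀ z) with hg
  have hginj : Function.Injective g := by
    intro z z' h
    have h2 := (Equiv.swap (g₀ x') x).injective h
    have h3 := congrArg Fin.val h2
    simp only [hg₀] at h3
    exact Fin.ext (by omega)
  have hgx : g x' = x := by
    show Equiv.swap (g₀ x') x (g₀ x') = x
    rw [Equiv.swap_apply_left]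
  have hgrange : ∀ z, a₀ ≤ (g z : ℕ) ∧ (g z : ℕ) < a₀ + R := by
    intro z
    have hz := z.2
    show a₀ ≤ (Equiv.swap (g₀ x') x (g₀ z) : ℕ) ∧ (Equiv.swap (g₀ x') x (g₀ z) : ℕ) < a₀ + R
    rw [Equiv.swap_apply_def]
    split_ifs
    · exact ⟨ha1, ha2⟩
    · simp only [hg₀]; omega
    · simp only [hg₀]; omega
  set lam : W → W := fun w => if h : ∃ z, κ z = w then ι (g h.choose) else w with hlam
  have hlamκ : ∀ z, lam (κ z) = ι (g z) := by
    intro z
    have h : ∃ z', κ z' = κ z := ⟨z, rfl⟩
    have h2 : h.choose = z := hκ h.choose_spec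
    simp only [hlam]
    rw [dif_pos h, h2]
  refine ⟨univ.image fun z => ι (g z), card_image_le.trans (by simp), ?_⟩
  set Λ : Finset W := univ.image fun z => ι (g z) with hΛ
  set A := Emb F G r (κ x') with hA
  set A' := Emb F G r (ι x) with hA'
  set Gain := A'.filter fun φ => ∃ b, F.Adj r b ∧ φ b ∉ Λ with hGain
  set B1 := A.filter fun φ => ∃ t, φ t = y with hB1
  set B2 := A.filter fun φ => ∃ a b, F.Reachable r a ∧ ¬ F.Reachable r b ∧ φ b = lam (φ a) with hB2
  have h1 : B1.card ≤ Fintype.card V * Fintype.card W ^ (Fintype.card V - 2) := by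
    refine card_two_le _ r (κ x') y (hQ.ny x') ?_
    intro φ hφ
    rw [hB1, mem_filter, hA, mem_Emb] at hφ
    exact ⟨hφ.1.1, hφ.2⟩
  have h2 : B2.card ≤ Fintype.card V ^ 2 * Fintype.card W ^ (Fintype.card V - 2) := by
    have h3 : B2 ⊆ (univ : Finset (V × V)).biUnion fun p =>
        A.filter fun φ => F.Reachable r p.1 ∧ ¬ F.Reachable r p.2 ∧ φ p.2 = lam (φ p.1) := by
      intro φ hφ
      rw [hB2, mem_filter] at hφ
      obtain ⟨hφ, a, b, h⟩ := hφ
      simp only [mem_biUnion, mem_univ, true_and, mem_filter]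
      exact ⟨(a, b), hφ, h⟩
    refine (card_le_card h3).trans ((card_biUnion_le_card_mul _ _
      (Fintype.card W ^ (Fintype.card V - 2)) ?_).trans (by simp [sq]))
    rintro ⟨a, b⟩ _
    simp only
    by_cases hab : F.Reachable r a ∧ ¬ F.Reachable r b
    · have hrb : r ≠ b := by rintro rfl; exact hab.2 (SimpleGraph.Reachable.refl _)
      have hne : a ≠ b := by rintro rfl; exact hab.2 hab.1
      have h4 := card_le_of_det (A.filter fun φ => F.Reachable r a ∧ ¬ F.Reachable r b ∧
        φ b = lam (φ a)) ({r, b} : Finset V)ᶜ (by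
        intro φ hφ φ' hφ' he
        rw [mem_filter, hA, mem_Emb] at hφ hφ'
        have hr : φ r = φ' r := by rw [hφ.1.1, hφ'.1.1]
        have ha : φ a = φ' a := by
          by_cases har : a = r
          · rw [har, hr]
          · exact he a (by simp [har, hne])
        funext c
        by_cases hc : c = r
        · rw [hc, hr]
        by_cases hc' : c = b
        · rw [hc', hφ.2.2.2, hφ'.2.2.2, ha]
        · exact he c (by simp [hc, hc']))
      rwa [card_compl, card_pair hrb] at h4
    · have : A.filter (fun φ => F.Reachable r a ∧ ¬ F.Reachable r b ∧ φ b = lam (φ a)) = ∅ := by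
        rw [filter_eq_empty_iff]
        intro φ _ h
        exact hab ⟨h.1, h.2.1⟩
      rw [this]; simp
  have h3 : (A \ (B1 ∪ B2)).card ≤ (A' \ Gain).card := by
    have hdata : ∀ φ ∈ A \ (B1 ∪ B2), φ r = κ x' ∧ Function.Injective φ ∧
        (∀ a b, F.Adj a b → G.Adj (φ a) (φ b)) ∧ (∀ a, φ a ≠ y) ∧
        (∀ a, F.Reachable r a → ∃ z, κ z = φ a) ∧
        (∀ a b, F.Reachable r a → ¬ F.Reachable r b → φ b ≠ lam (φ a)) := by
      intro φ hφ
      rw [mem_sdiff, mem_union] at hφ
      obtain ⟨hφA, hφB⟩ := hφ
      have hφA' := hφA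
      rw [hA, mem_Emb] at hφA
      obtain ⟨e1, e2, e3⟩ := hφA
      have hny : ∀ a, φ a ≠ y := fun a h => hφB (Or.inl (by
        rw [hB1, mem_filter]; exact ⟨hφA', a, h⟩))
      refine ⟨e1, e2, e3, hny, ?_, ?_⟩
      · have key : ∀ a b, F.Walk a b → (∃ z, κ z = φ a) → ∃ z, κ z = φ b := by
          intro a b p
          induction p with
          | nil => exact id
          | cons h _ ih =>
            rintro ⟨z, hz⟩
            apply ih
            have h5 := e3 _ _ h
            rw [← hz] at h5
            exact (hQ.out z _ h5).resolve_left (hny _)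
        intro a ⟨p⟩
        exact key r a p ⟨x', e1.symm⟩
      · intro a b ha hb h
        exact hφB (Or.inr (by rw [hB2, mem_filter]; exact ⟨hφA', a, b, ha, hb, h⟩))
    refine card_le_card_of_injOn
      (fun φ a => if F.Reachable r a then lam (φ a) else φ a) ?_ ?_
    · intro φ hφ
      obtain ⟨e1, e2, e3, e4, e5, e6⟩ := hdata φ hφ
      have hcl : ∀ a b, F.Reachable r a → F.Reachable r b → a ≠ b →
          G.Adj (lam (φ a)) (lam (φ b)) := by
        intro a b ha hb hab
        obtain ⟨z, hz⟩ := e5 a ha
        obtain ⟨z', hz'⟩ := e5 b hb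
        rw [← hz, ← hz', hlamκ, hlamκ, hP.adj]
        have h6 := hgrange z
        have h7 := hgrange z'
        refine ⟨fun h => hab (e2 ?_), ?_, ?_⟩
        · rw [← hz, ← hz', hginj h]
        · omega
        · omega
      rw [mem_coe, mem_sdiff, hA', mem_Emb]
      refine ⟨⟨?_, ?_, ?_⟩, ?_⟩
      · show (if F.Reachable r r then lam (φ r) else φ r) = ι x
        rw [if_pos (SimpleGraph.Reachable.refl _), e1, hlamκ, hgx]
      · intro a b hab
        change (if F.Reachable r a then lam (φ a) else φ a) =
          (if F.Reachable r b then lam (φ b) else φ b) at hab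
        by_cases ha : F.Reachable r a <;> by_cases hb : F.Reachable r b
        · rw [if_pos ha, if_pos hb] at hab
          by_contra hne
          exact (hcl a b ha hb hne).ne hab
        · rw [if_pos ha, if_neg hb] at hab
          exact absurd hab.symm (e6 a b ha hb)
        · rw [if_neg ha, if_pos hb] at hab
          exact absurd hab (e6 b a hb ha)
        · rw [if_neg ha, if_neg hb] at hab
          exact e2 hab
      · intro a b hab
        show G.Adj (if F.Reachable r a then lam (φ a) else φ a)
          (if F.Reachable r b then lam (φ b) else φ b)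
        by_cases ha : F.Reachable r a
        · have hb : F.Reachable r b := ha.trans hab.reachable
          rw [if_pos ha, if_pos hb]
          exact hcl a b ha hb hab.ne
        · have hb : ¬ F.Reachable r b := fun h => ha (h.trans hab.symm.reachable)
          rw [if_neg ha, if_neg hb]
          exact e3 a b hab
      · rw [hGain, mem_filter]
        rintro ⟨_, b, hb, hb2⟩
        apply hb2
        show (if F.Reachable r b then lam (φ b) else φ b) ∈ Λ
        rw [if_pos hb.reachable]
        obtain ⟨z, hz⟩ := e5 b hb.reachable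
        rw [← hz, hlamκ, hΛ, mem_image]
        exact ⟨z, mem_univ _, rfl⟩
    · intro φ hφ φ' hφ' he
      obtain ⟨e1, e2, e3, e4, e5, e6⟩ := hdata φ hφ
      obtain ⟨f1, f2, f3, f4, f5, f6⟩ := hdata φ' hφ'
      funext a
      have h4 := congrFun he a
      change (if F.Reachable r a then lam (φ a) else φ a) =
          (if F.Reachable r a then lam (φ' a) else φ' a) at h4
      by_cases ha : F.Reachable r a
      · rw [if_pos ha, if_pos ha] at h4
        obtain ⟨z, hz⟩ := e5 a ha
        obtain ⟨z', hz'⟩ := f5 a ha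
        rw [← hz, ← hz', hlamκ, hlamκ] at h4
        rw [← hz, ← hz', hginj (hι h4)]
      · rwa [if_neg ha, if_neg ha] at h4
  have h4 : A.card ≤ (A \ (B1 ∪ B2)).card + (B1 ∪ B2).card := by
    have h5 : (B1 ∪ B2) ⊆ A := by
      intro φ hφ
      rw [mem_union, hB1, hB2, mem_filter, mem_filter] at hφ
      rcases hφ with h | h
      · exact h.1
      · exact h.1
    rw [card_sdiff_add_card_eq_card h5]
  have h5 : (B1 ∪ B2).card ≤ B1.card + B2.card := card_union_le _ _
  have h6 : A'.card = (A' \ Gain).card + Gain.card := by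
    rw [card_sdiff_add_card_eq_card (filter_subset _ _)]
  omega

lemma Block.le_gain (hP : Block G y R ι) (F : SimpleGraph V) {r s₁ : V} (hs : F.Adj r s₁)
    (x : Fin (2 * R)) (Λ : Finset W) (k : ℕ) (hΛ : Λ.card ≤ k) :
    (R - 1 - k).descFactorial (Fintype.card V - 1) ≤
      ((Emb F G r (ι x)).filter fun φ => ∃ b, F.Adj r b ∧ φ b ∉ Λ).card := by
  have hι := hP.inj
  have hx := x.2
  obtain ⟨a, ha1, ha2, ha3⟩ : ∃ a : ℕ, a ≤ x ∧ (x : ℕ) < a + R ∧ a + R ≤ 2 * R := by
    by_cases h : (x : ℕ) < R
    · exact ⟨0, by omega, by omega, by omega⟩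
    · exact ⟨R, by omega, by omega, by omega⟩
  obtain ⟨K, hK1, hK2⟩ := exists_interval (W := W) hι a R ha3
  have := le_card_ext ({r} : Finset V) (fun _ => ι x) (by simp) ((K.erase (ι x)) \ Λ) (by simp)
    ((Emb F G r (ι x)).filter fun φ => ∃ b, F.Adj r b ∧ φ b ∉ Λ) (by
    intro φ hinj h1 h2
    have h3 : φ r = ι x := h1 r (by simp)
    have h4 : ∀ b, ∃ z : Fin (2 * R), ι z = φ b ∧ a ≤ (z : ℕ) ∧ (z : ℕ) < a + R := by
      intro b
      by_cases hb : b = r
      · exact ⟨x, by rw [hb, h3], ha1, ha2⟩
      · have h5 := h2 b (by simpa using hb)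
        rw [mem_sdiff, mem_erase] at h5
        exact hK2 _ h5.1.2
    rw [mem_filter, mem_Emb]
    refine ⟨⟨h3, hinj, fun b c hbc => ?_⟩, s₁, hs, ?_⟩
    · obtain ⟨z, hz1, hz2, hz3⟩ := h4 b
      obtain ⟨z', hz1', hz2', hz3'⟩ := h4 c
      rw [← hz1, ← hz1', hP.adj]
      refine ⟨fun h => hbc.ne (hinj ?_), ?_, ?_⟩
      · rw [← hz1, ← hz1', h]
      · omega
      · omega
    · have h5 := h2 s₁ (by simpa using hs.ne')
      rw [mem_sdiff] at h5
      exact h5.2)
  rw [card_singleton] at this
  have h1 : R - 1 - k ≤ ((K.erase (ι x)) \ Λ).card := by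
    have h2 := Finset.pred_card_le_card_erase (s := K) (a := ι x)
    have h3 := le_card_sdiff Λ (K.erase (ι x))
    omega
  exact (Nat.descFactorial_le _ h1).trans this

end Pool.Agent.Q274.FI
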