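import Pool.Agent.Q274.FI.USum

/-!
# Distinct vertices have distinct numbers of copies
-/

set_option autoImplicit false

open Finset

namespace Pool.Agent.Q274.FI

open scoped Classical

variable {V W : Type} [Fintype V] [Fintype W]

/-- There is a path of length two. -/
def HasPath (F : SimpleGraph V) : Prop := ∃ r t s, F.Adj r t ∧ F.Adj t s ∧ s ≠ r

/-- `F` is a matching with at least two edges, up to isolated vertices. -/
def IsMatch (F : SimpleGraph V) : Prop :=
  (∀ a b c, F.Adj a b → F.Adj a c → b = c) ∧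
    ∃ r r' t s, F.Adj r r' ∧ F.Adj t s ∧ t ≠ r ∧ t ≠ r'

lemma path_or_match (F : SimpleGraph V) (h : 2 ≤ F.edgeSet.ncard) : HasPath F ∨ IsMatch F := by
  by_cases hp : HasPath F
  · exact Or.inl hp
  right
  have hm : ∀ a b c, F.Adj a b → F.Adj a c → b = c := by
    intro a b c hab hac
    by_contra hbc
    exact hp ⟨b, a, c, hab.symm, hac, Ne.symm hbc⟩
  refine ⟨hm, ?_⟩
  obtain ⟨e, e', he, he', hne⟩ := (Set.one_lt_ncard_iff (Set.toFinite _)).1 h
  induction e using Sym2.ind with
  | _ a b =>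
    induction e' using Sym2.ind with
    | _ c d =>
      rw [SimpleGraph.mem_edgeSet] at he he'
      refine ⟨a, b, c, d, he, he', ?_, ?_⟩
      · rintro rfl
        exact hne (by rw [hm c b d he he'])
      · rintro rfl
        apply hne
        rw [hm c a d he.symm he', Sym2.eq_swap]

lemma HasPath.card {F : SimpleGraph V} (h : HasPath F) : 3 ≤ Fintype.card V := by
  obtain ⟨r, t, s, h1, h2, h3⟩ := h
  have : ({r, t, s} : Finset V).card = 3 := card_eq_three.2 ⟨r, t, s, h1.ne, h3.symm, h2.ne, rfl⟩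
  rw [← this]
  exact card_le_univ _

lemma IsMatch.card {F : SimpleGraph V} (h : IsMatch F) : 4 ≤ Fintype.card V := by
  obtain ⟨hm, r, r', t, s, h1, h2, h3, h4⟩ := h
  have h5 : s ≠ r := by rintro rfl; exact h4 (hm s t r' h2.symm h1)
  have h6 : s ≠ r' := by rintro rfl; exact h3 (hm s t r h2.symm h1.symm)
  have : ({r, r', t, s} : Finset V).card = 4 := by
    rw [card_insert_of_notMem (by simp [h1.ne, h3.symm, h5.symm]),
      card_eq_three.2 ⟨r', t, s, h4.symm, h6.symm, h2.ne, rfl⟩]
  rw [← this]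
  exact card_le_univ _

omit [Fintype V] in
lemma exists_edge {F : SimpleGraph V} (h : HasPath F ∨ IsMatch F) : ∃ a b, F.Adj a b := by
  rcases h with ⟨r, t, s, h1, _⟩ | ⟨_, r, r', t, s, h1, _⟩
  · exact ⟨r, t, h1⟩
  · exact ⟨r, r', h1⟩

variable {G H : SimpleGraph W} {y : W} {R : ℕ} {ι : Fin (2 * R) → W}

lemma SBlock.card_Use_rev (hB : SBlock H y R ι) (F : SimpleGraph V) (r : V)
    (x x₀ xl : Fin (2 * R)) (hrev : Fin.rev x₀ = xl) :
    (Use F H r (ι x.rev) (ι x₀) y).card = (Use F H r (ι x) (ι xl) y).card := by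
  have hι := hB.inj
  have hy : refl ι y = y := refl_out (by rintro ⟨z, hz⟩; exact hB.ny z hz)
  have := hB.card_refl F r (ι x.rev) (fun φ => ∃ t s, F.Adj t s ∧ φ t = ι x₀ ∧ φ s = y)
    (fun φ => ∃ t s, F.Adj t s ∧ φ t = ι xl ∧ φ s = y) (by
    intro φ
    constructor
    · rintro ⟨t, s, h3, h4, h5⟩
      refine ⟨t, s, h3, ?_, ?_⟩
      · show refl ι (φ t) = ι xl
        rw [h4, refl_ι hι, hrev]
      · show refl ι (φ s) = y
        rw [h5, hy]
    · rintro ⟨t, s, h3, h4, h5⟩
      refine ⟨t, s, h3, ?_, ?_⟩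
      · apply refl_injective hι
        refine Eq.trans h4 ?_
        rw [refl_ι hι, hrev]
      · apply refl_injective hι
        refine Eq.trans h5 ?_
        rw [hy])
  rw [refl_ι hι, Fin.rev_rev] at this
  unfold Use
  convert this

theorem Block.injectiveC (hG : Block G y R ι) (hR : 2 ≤ R) (F : SimpleGraph V)
    (hF : HasPath F ∨ IsMatch F)
    (c1 : Fintype.card V ^ 3 * Fintype.card W ^ (Fintype.card V - 3) <
      (R - 2).descFactorial (Fintype.card V - 2))
    (c2 : Fintype.card V ^ 5 * Fintype.card W ^ (Fintype.card V - 3) <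
      Fintype.card W * (R - 2).descFactorial (Fintype.card V - 3))
    (c3 : IsMatch F → Fintype.card V ^ 6 * Fintype.card W ^ (Fintype.card V - 4) <
      Fintype.card W * (R - 2).descFactorial (Fintype.card V - 4)) :
    Function.Injective fun x => ∑ r, (Emb F G r (ι x)).card := by
  have hpos : 0 < 2 * R := by omega
  set x₀ : Fin (2 * R) := ⟨0, hpos⟩ with hx₀
  have h0 : (x₀ : ℕ) = 0 := rfl
  set xl : Fin (2 * R) := ⟨2 * R - 1, by omega⟩ with hxl'
  have hxl : (xl : ℕ) = 2 * R - 1 := rfl
  have hrev : Fin.rev x₀ = xl := by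
    apply Fin.ext
    have := Fin.val_rev x₀
    omega
  set H := G ⊔ SimpleGraph.edge (ι x₀) y with hH
  have hB : SBlock H y R ι := hG.sblock x₀ h0
  have hι := hG.inj
  obtain ⟨a₀, b₀, hab⟩ := exists_edge hF
  refine numeric_block R _ (fun x => ∑ r, (Emb F H r (ι x)).card)
    (fun x => ∑ r, (Use F H r (ι x) (ι x₀) y).card)
    (Fintype.card V ^ 3 * Fintype.card W ^ (Fintype.card V - 3)) x₀ h0 ?_ ?_ ?_ ?_ ?_ ?_
  · intro x
    rw [← Finset.sum_add_distrib]
    exact Finset.sum_congr rfl fun r _ => hG.card_add x₀ h0 F r (ι x)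
  · intro x
    refine Finset.sum_congr rfl fun r _ => ?_
    have := hB.card_refl F r (ι x) (fun _ => True) (fun _ => True) (fun _ => Iff.rfl)
    rw [refl_ι hι, filter_true, filter_true] at this
    exact this.symm
  · intro x x' h1 h2
    have hx := x.2
    have := hB.stepC F hab x x' ⟨x + R, by omega⟩ h1 rfl h2
    rw [card_EmbC, card_EmbC] at this
    omega
  · intro x hx
    have h1 : ∀ r ∈ (univ : Finset V), (Use F H r (ι x) (ι x₀) y).card ≤
        Fintype.card V ^ 2 * Fintype.card W ^ (Fintype.card V - 3) := by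
      intro r _
      refine card_Use_le F r _ _ (fun h => hx ?_) (hG.ny x) (hG.ny x₀)
      rw [hι h, h0]
    have h2 := Finset.sum_le_card_nsmul _ _ _ h1
    rw [card_univ, smul_eq_mul] at h2
    refine h2.trans (le_of_eq ?_)
    ring
  · have h1 := hB.le_card_Use F hab x₀ h0
    have h2 : (R - 2).descFactorial (Fintype.card V - 2) ≤
        (R - 1).descFactorial (Fintype.card V - 2) := Nat.descFactorial_le _ (by omega)
    have h3 : (Use F H a₀ (ι x₀) (ι x₀) y).card ≤ ∑ r, (Use F H r (ι x₀) (ι x₀) y).card :=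
      Finset.single_le_sum (f := fun r => (Use F H r (ι x₀) (ι x₀) y).card)
        (fun _ _ => Nat.zero_le _) (mem_univ a₀)
    show Fintype.card V ^ 3 * Fintype.card W ^ (Fintype.card V - 3) <
      ∑ r, (Use F H r (ι x₀) (ι x₀) y).card
    omega
  · intro x hx hxR heq
    have h2 : ∑ r, (Use F H r (ι x.rev) (ι x₀) y).card =
        ∑ r, (Use F H r (ι x) (ι xl) y).card :=
      Finset.sum_congr rfl fun r _ => hB.card_Use_rev F r x x₀ xl hrev
    rw [h2] at heq
    rcases hF with ⟨r, t, s, e1, e2, e3⟩ | hM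
    · have h1 := hB.sum_good F e1 e2 e3 x x₀ xl hx hxR h0 hxl
      rw [heq] at h1
      omega
    · have h3 := c3 hM
      obtain ⟨hm, r, r', t, s, e1, e2, e3, e4⟩ := hM
      have h1 := hB.sum_match F hm e1 e2 e3 e4 x x₀ xl hx hxR h0 hxl
      rw [heq] at h1
      omega

theorem TwoBlocks.injectiveC {L : ℕ} {ι : Fin (2 * (16 * L)) → W} {κ : Fin (2 * (2 * L)) → W}
    (hT : TwoBlocks G y L ι κ) {F : SimpleGraph V} (hF : HasPath F ∨ IsMatch F)
    (hL : Fintype.card V ^ 6 * 40 ^ Fintype.card V < L) :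
    Function.Injective fun w => ∑ r, (Emb F G r w).card := by
  have hcardW := hT.card
  have h3 : 3 ≤ Fintype.card V := by
    rcases hF with h | h
    · exact h.card
    · have := h.card; omega
  obtain ⟨a₀, b₀, hab⟩ := exists_edge hF
  obtain ⟨k, hk⟩ : ∃ k, Fintype.card V = k + 3 := ⟨Fintype.card V - 3, by omega⟩
  have hp : ∀ j, j ≤ k + 3 → ∀ c, c ≤ (k + 3) ^ 6 → c * 40 ^ j < L := by
    intro j hj c hc
    rw [hk] at hL
    refine lt_of_le_of_lt ?_ hL
    exact Nat.mul_le_mul hc (Nat.pow_le_pow_right (by norm_num) hj)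
  have hkL : k + 3 < L := by
    have h1 := hp 0 (by omega) (k + 3) (Nat.le_self_pow (by norm_num) _)
    simpa using h1
  have hw : Fintype.card W ≤ 40 * L := by omega
  have hpow : ∀ i, i ≤ 6 → (k + 3) ^ i ≤ (k + 3) ^ 6 := fun i hi =>
    Nat.pow_le_pow_right (by omega) hi
  have hblock : ∀ R, 2 * L ≤ R →
      (Fintype.card V ^ 3 * Fintype.card W ^ (Fintype.card V - 3) <
        (R - 2).descFactorial (Fintype.card V - 2)) ∧
      (Fintype.card V ^ 5 * Fintype.card W ^ (Fintype.card V - 3) <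
        Fintype.card W * (R - 2).descFactorial (Fintype.card V - 3)) ∧
      (IsMatch F → Fintype.card V ^ 6 * Fintype.card W ^ (Fintype.card V - 4) <
        Fintype.card W * (R - 2).descFactorial (Fintype.card V - 4)) := by
    intro R hR
    have e1 : Fintype.card V - 3 = k := by omega
    have e2 : Fintype.card V - 2 = k + 1 := by omega
    refine ⟨?_, ?_, ?_⟩
    · rw [e1, e2, hk]
      have h1 := pow_bound L (Fintype.card W) ((k + 3) ^ 3) k hw (hp k (by omega) _
        (hpow 3 (by norm_num)))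
      have h2 := desc_bound (R - 2) L (k + 1) (by omega)
      omega
    · rw [e1, hk]
      have h1 := pow_bound L (Fintype.card W) ((k + 3) ^ 5) k hw (hp k (by omega) _
        (hpow 5 (by norm_num)))
      have h2 := desc_bound (R - 2) L k (by omega)
      refine lt_of_lt_of_le h1 ?_
      rw [pow_succ, mul_comm]
      exact Nat.mul_le_mul (by omega) h2
    · intro hM
      have h4 := hM.card
      obtain ⟨j, hj⟩ : ∃ j, k = j + 1 := ⟨k - 1, by omega⟩
      have e3 : Fintype.card V - 4 = j := by omega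
      rw [e3, hk]
      have h1 := pow_bound L (Fintype.card W) ((k + 3) ^ 6) j hw (hp j (by omega) _ le_rfl)
      have h2 := desc_bound (R - 2) L j (by omega)
      refine lt_of_lt_of_le h1 ?_
      rw [pow_succ, mul_comm]
      exact Nat.mul_le_mul (by omega) h2
  have hP := hT.P.injectiveC (by omega) F hF (hblock _ (by omega)).1 (hblock _ (by omega)).2.1
    (hblock _ (by omega)).2.2
  have hQ := hT.Q.injectiveC (by omega) F hF (hblock _ le_rfl).1 (hblock _ le_rfl).2.1
    (hblock _ le_rfl).2.2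
  have e1 : Fintype.card V - 1 = k + 2 := by omega
  have e2 : Fintype.card V - 2 = k + 1 := by omega
  -- a general summation
  have hsum : ∀ (f g : V → ℕ) (c d : ℕ), (∀ r, f r ≤ g r + c) → f a₀ + d ≤ g a₀ + c →
      ∑ r, f r + d ≤ ∑ r, g r + Fintype.card V * c := by
    intro f g c d h1 h2
    rw [← Finset.add_sum_erase univ f (mem_univ a₀), ← Finset.add_sum_erase univ g (mem_univ a₀)]
    have h4 : ∑ r ∈ univ.erase a₀, f r ≤ ∑ r ∈ univ.erase a₀, (g r + c) :=
      Finset.sum_le_sum fun r _ => h1 r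
    rw [Finset.sum_add_distrib, Finset.sum_const, card_erase_of_mem (mem_univ _), card_univ,
      smul_eq_mul] at h4
    have h5 : c + (Fintype.card V - 1) * c = Fintype.card V * c := by
      calc c + (Fintype.card V - 1) * c = ((Fintype.card V - 1) + 1) * c := by ring
        _ = Fintype.card V * c := by rw [Nat.sub_add_cancel (by omega)]
    omega
  -- the two blocks
  have hPQ : ∀ x x', ∑ r, (Emb F G r (κ x')).card < ∑ r, (Emb F G r (ι x)).card := by
    intro x x'
    set c := (k + 3) * Fintype.card W ^ (k + 1) + (k + 3) ^ 2 * Fintype.card W ^ (k + 1) with hc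
    have h1 : ∀ r, (Emb F G r (κ x')).card ≤ (Emb F G r (ι x)).card + c := by
      intro r
      obtain ⟨Λ, _, h⟩ := hT.P.cross hT.Q (by omega) F r x x'
      rw [e2] at h
      simp only [hk] at h
      omega
    have h2 : (Emb F G a₀ (κ x')).card + (16 * L - 1 - 2 * (2 * L)).descFactorial (k + 2) ≤
        (Emb F G a₀ (ι x)).card + c := by
      obtain ⟨Λ, hΛ, h⟩ := hT.P.cross hT.Q (by omega) F a₀ x x'
      have h4 := hT.P.le_gain F hab x Λ _ hΛ
      rw [e2] at h
      rw [e1] at h4
      simp only [hk] at h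
      omega
    have h4 := hsum (fun r => (Emb F G r (κ x')).card) (fun r => (Emb F G r (ι x)).card) c _ h1 h2
    have h5 := desc_bound (16 * L - 1 - 2 * (2 * L)) L (k + 2) (by omega)
    have h6 : Fintype.card V * c = ((k + 3) ^ 2 + (k + 3) ^ 3) * Fintype.card W ^ (k + 1) := by
      rw [hk, hc]; ring
    have h7 := pow_bound L (Fintype.card W) ((k + 3) ^ 2 + (k + 3) ^ 3) (k + 1) hw
      (hp (k + 1) (by omega) _ (by
        have h8 : (k + 3) ^ 2 ≤ (k + 3) ^ 5 := Nat.pow_le_pow_right (by omega) (by norm_num)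
        have h9 : (k + 3) ^ 3 ≤ (k + 3) ^ 5 := Nat.pow_le_pow_right (by omega) (by norm_num)
        have h10 : 2 * (k + 3) ^ 5 ≤ (k + 3) ^ 6 := by
          rw [pow_succ (k + 3) 5, mul_comm]
          exact Nat.mul_le_mul_left _ (by omega)
        omega))
    have h11 : L ^ (k + 1 + 1) = L ^ (k + 2) := rfl
    omega
  -- the apex
  have hyP : ∀ x, ∑ r, (Emb F G r (ι x)).card < ∑ r, (Emb F G r y).card := by
    intro x
    set c := 2 * ((k + 3) * Fintype.card W ^ (k + 1)) with hc
    have h1 : ∀ r, (Emb F G r (ι x)).card ≤ (Emb F G r y).card + c := by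
      intro r
      have h := hT.P.card_le_apex' F r x
      have h' : ((Emb F G r y).filter fun φ => ∀ b, F.Adj r b → ∃ z, ι z = φ b).card ≤
        (Emb F G r y).card := card_le_card (filter_subset _ _)
      rw [e2] at h
      simp only [hk] at h
      omega
    have h2 : (Emb F G a₀ (ι x)).card + (2 * L).descFactorial (k + 2) ≤
        (Emb F G a₀ y).card + c := by
      have h := hT.P.card_le_apex' F a₀ x
      have h4 := hT.Q.le_card_apex (by omega) F a₀
      rw [e2] at h
      rw [e1] at h4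
      simp only [hk] at h
      have hdisj : Disjoint ((Emb F G a₀ y).filter fun φ => ∀ b, F.Adj a₀ b → ∃ z, ι z = φ b)
          ((Emb F G a₀ y).filter fun φ => ∀ a, a ≠ a₀ → ∃ z, κ z = φ a) := by
        rw [Finset.disjoint_left]
        intro φ h6 h7
        rw [mem_filter] at h6 h7
        obtain ⟨z, hz⟩ := h6.2 b₀ hab
        obtain ⟨z', hz'⟩ := h7.2 b₀ hab.ne'
        exact hT.ne z z' (hz.trans hz'.symm)
      have h10 := card_union_of_disjoint hdisj
      have h11 := card_le_card (union_subset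
        (filter_subset (fun φ => ∀ b, F.Adj a₀ b → ∃ z, ι z = φ b) (Emb F G a₀ y))
        (filter_subset (fun φ => ∀ a, a ≠ a₀ → ∃ z, κ z = φ a) (Emb F G a₀ y)))
      omega
    have h4 := hsum (fun r => (Emb F G r (ι x)).card) (fun r => (Emb F G r y).card) c _ h1 h2
    have h5 := desc_bound (2 * L) L (k + 2) (by omega)
    have h6 : Fintype.card V * c = (2 * (k + 3) ^ 2) * Fintype.card W ^ (k + 1) := by
      rw [hk, hc]; ring
    have h7 := pow_bound L (Fintype.card W) (2 * (k + 3) ^ 2) (k + 1) hw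
      (hp (k + 1) (by omega) _ (by
        have h8 : (k + 3) ^ 2 ≤ (k + 3) ^ 5 := Nat.pow_le_pow_right (by omega) (by norm_num)
        have h10 : 2 * (k + 3) ^ 5 ≤ (k + 3) ^ 6 := by
          rw [pow_succ (k + 3) 5, mul_comm]
          exact Nat.mul_le_mul_left _ (by omega)
        omega))
    have h11 : L ^ (k + 1 + 1) = L ^ (k + 2) := rfl
    omega
  have hyQ : ∀ x, ∑ r, (Emb F G r (κ x)).card < ∑ r, (Emb F G r y).card := fun x =>
    (hPQ ⟨0, by omega⟩ x).trans (hyP _)
  intro w w' hww
  simp only at hww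
  rcases hT.all w with rfl | ⟨x, rfl⟩ | ⟨x, rfl⟩ <;> rcases hT.all w' with h | ⟨x', rfl⟩ | ⟨x', rfl⟩
  · exact h.symm
  · have := hyP x'; omega
  · have := hyQ x'; omega
  · rw [h] at hww; have := hyP x; omega
  · rw [hP hww]
  · have := hPQ x x'; omega
  · rw [h] at hww; have := hyQ x; omega
  · have := hPQ x' x; omega
  · rw [hQ hww]

end Pool.Agent.Q274.FI
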