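import Pool.Agent.Q274.FI.UCross

/-!
# The two ends of a block for matchings
-/

set_option autoImplicit false

open Finset

namespace Pool.Agent.Q274.FI

open scoped Classical

variable {V W : Type} [Fintype V] [Fintype W]

variable {H : SimpleGraph W} {y : W} {R : ℕ} {ι : Fin (2 * R) → W}

/-- The modification of a homomorphism: exchange the two ends of the block and reflect the image
of the partner of the vertex at the last position. -/
noncomputable def tau (F : SimpleGraph V) (ι : Fin (2 * R) → W) (x₀ xl : Fin (2 * R)) (φ : V → W)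
    (b : V) : W :=
  if ∃ a, F.Adj a b ∧ φ a = ι xl then refl ι (φ b) else Equiv.swap (ι x₀) (ι xl) (φ b)

/-- The exceptional homomorphisms. -/
noncomputable def Exc (F : SimpleGraph V) (H : SimpleGraph W) (r : V) (v y : W) (t : V)
    (ι : Fin (2 * R) → W) (x₀ xl : Fin (2 * R)) : Finset (V → W) :=
  (UseAt F H r v (ι x₀) y t).filter fun φ =>
    ∃ a a' b, F.Adj a a' ∧ φ a = ι xl ∧ φ b = refl ι (φ a')

lemma SBlock.match_le (hB : SBlock H y R ι) (F : SimpleGraph V)
    (hm : ∀ a b c, F.Adj a b → F.Adj a c → b = c) (r : V) (x x₀ xl : Fin (2 * R))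
    (hx0 : (x : ℕ) ≠ 0) (hxR : (x : ℕ) < R) (h0 : (x₀ : ℕ) = 0) (hxl : (xl : ℕ) = 2 * R - 1)
    (t : V) :
    (UseAt F H r (ι x) (ι x₀) y t).card +
        ((UseAt F H r (ι x) (ι xl) y t).filter fun φ => ∃ r', F.Adj r r' ∧ φ r' = ι x₀).card ≤
      (UseAt F H r (ι x) (ι xl) y t).card + (Exc F H r (ι x) y t ι x₀ xl).card := by
  have hι := hB.inj
  have hrev : Fin.rev xl = x₀ := by
    apply Fin.ext
    have := Fin.val_rev xl
    omega
  have hne0 : ι x ≠ ι x₀ := fun h => by have := congrArg Fin.val (hι h); omega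
  have hnel : ι x ≠ ι xl := fun h => by have := congrArg Fin.val (hι h); omega
  have h0l : ι x₀ ≠ ι xl := fun h => by have := congrArg Fin.val (hι h); omega
  have hxnl : ¬ H.Adj (ι x) (ι xl) := by rw [hB.adj]; rintro ⟨_, _, h⟩; omega
  have hreflxl : refl ι (ι xl) = ι x₀ := by rw [refl_ι hι, hrev]
  have hreflx0 : refl ι (ι x₀) = ι xl := by rw [← hreflxl, refl_refl hι]
  set A := UseAt F H r (ι x) (ι x₀) y t with hA
  set A' := UseAt F H r (ι x) (ι xl) y t with hA'
  set Gain := A'.filter fun φ => ∃ r', F.Adj r r' ∧ φ r' = ι x₀ with hGain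
  have hExc : Exc F H r (ι x) y t ι x₀ xl ⊆ A := by rw [Exc]; exact filter_subset _ _
  have hinj : (A \ Exc F H r (ι x) y t ι x₀ xl).card ≤ (A' \ Gain).card := by
    -- the data of a member
    have hdata : ∀ φ ∈ A \ Exc F H r (ι x) y t ι x₀ xl, φ r = ι x ∧ Function.Injective φ ∧
        (∀ a b, F.Adj a b → H.Adj (φ a) (φ b)) ∧ φ t = ι x₀ ∧
        (∃ s, F.Adj t s ∧ φ s = y) ∧
        (∀ a a' b, F.Adj a a' → φ a = ι xl → φ b ≠ refl ι (φ a')) := by
      intro φ hφ
      rw [mem_sdiff] at hφ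
      obtain ⟨hφA, hφE⟩ := hφ
      have hφA' := hφA
      rw [hA, UseAt, mem_filter, mem_Emb] at hφA
      obtain ⟨⟨e1, e2, e3⟩, e4, e5⟩ := hφA
      refine ⟨e1, e2, e3, e4, e5, ?_⟩
      intro a a' b haa ha hb
      exact hφE (by rw [Exc, mem_filter]; exact ⟨hφA', a, a', b, haa, ha, hb⟩)
    -- a special vertex
    have hsp : ∀ φ ∈ A \ Exc F H r (ι x) y t ι x₀ xl, ∀ a b, F.Adj a b → φ a = ι xl →
        φ b ≠ ι x₀ ∧ φ b ≠ ι xl := by
      intro φ hφ a b hab ha
      obtain ⟨e1, e2, e3, e4, ⟨s, hts, e5⟩, e6⟩ := hdata φ hφ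
      constructor
      · intro hb
        have h3 : b = t := e2 (hb.trans e4.symm)
        subst h3
        have h4 : s = a := hm b s a hts hab.symm
        rw [← h4, e5] at ha
        exact hB.ny _ ha.symm
      · intro hb
        exact hab.ne (e2 (ha.trans hb.symm))
    have htau_sp : ∀ (φ : V → W) (b : V), (∃ a, F.Adj a b ∧ φ a = ι xl) →
        tau F ι x₀ xl φ b = refl ι (φ b) := by
      intro φ b h; unfold tau; rw [if_pos h]
    have htau_nsp : ∀ (φ : V → W) (b : V), (¬ ∃ a, F.Adj a b ∧ φ a = ι xl) →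
        tau F ι x₀ xl φ b = Equiv.swap (ι x₀) (ι xl) (φ b) := by
      intro φ b h; unfold tau; rw [if_neg h]
    -- where the first vertex is attained
    have hx0iff : ∀ φ ∈ A \ Exc F H r (ι x) y t ι x₀ xl, ∀ a, tau F ι x₀ xl φ a = ι x₀ ↔
        φ a = ι xl := by
      intro φ hφ a
      by_cases h : ∃ c, F.Adj c a ∧ φ c = ι xl
      · obtain ⟨c, hc, hc2⟩ := h
        rw [htau_sp φ a ⟨c, hc, hc2⟩]
        have h3 := hsp φ hφ c a hc hc2
        constructor
        · intro h4
          have := congrArg (refl ι) h4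
          rwa [refl_refl hι, hreflx0] at this
        · intro h4
          exact absurd h4 h3.2
      · rw [htau_nsp φ a h]
        constructor
        · intro h4
          have := congrArg (Equiv.swap (ι x₀) (ι xl)) h4
          rwa [Equiv.swap_apply_self, Equiv.swap_apply_left] at this
        · intro h4
          rw [h4, Equiv.swap_apply_right]
    refine card_le_card_of_injOn (fun φ => tau F ι x₀ xl φ) ?_ ?_
    · intro φ hφ
      rw [mem_coe] at hφ
      obtain ⟨e1, e2, e3, e4, ⟨s, hts, e5⟩, e6⟩ := hdata φ hφ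
      have hr : ¬ ∃ a, F.Adj a r ∧ φ a = ι xl := by
        rintro ⟨a, ha, ha2⟩
        have := e3 a r ha
        rw [ha2, e1] at this
        exact hxnl this.symm
      have ht : ¬ ∃ a, F.Adj a t ∧ φ a = ι xl := by
        rintro ⟨a, ha, ha2⟩
        have h3 := hm t a s ha.symm hts
        rw [h3, e5] at ha2
        exact hB.ny _ ha2.symm
      have hs : ¬ ∃ a, F.Adj a s ∧ φ a = ι xl := by
        rintro ⟨a, ha, ha2⟩
        have h3 := hm s a t ha.symm hts.symm
        rw [h3, e4] at ha2
        exact h0l ha2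
      rw [mem_coe, mem_sdiff, hA', UseAt, mem_filter, mem_Emb]
      refine ⟨⟨⟨?_, ?_, ?_⟩, ?_, s, hts, ?_⟩, ?_⟩
      · show tau F ι x₀ xl φ r = ι x
        rw [htau_nsp φ r hr, e1, Equiv.swap_apply_of_ne_of_ne hne0 hnel]
      · intro b c hbc
        change tau F ι x₀ xl φ b = tau F ι x₀ xl φ c at hbc
        have mixed : ∀ b c, (∃ a, F.Adj a b ∧ φ a = ι xl) → (¬ ∃ a, F.Adj a c ∧ φ a = ι xl) →
            tau F ι x₀ xl φ b ≠ tau F ι x₀ xl φ c := by
          rintro b c ⟨a, hab, ha⟩ hc h
          have h3 := hsp φ hφ a b hab ha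
          rw [htau_sp φ b ⟨a, hab, ha⟩, htau_nsp φ c hc, Equiv.swap_apply_def] at h
          split_ifs at h with h4 h5
          · have := congrArg (refl ι) h
            rw [refl_refl hι, hreflxl] at this
            exact h3.1 this
          · have := congrArg (refl ι) h
            rw [refl_refl hι, hreflx0] at this
            exact h3.2 this
          · exact e6 a b c hab ha h.symm
        by_cases hb : ∃ a, F.Adj a b ∧ φ a = ι xl <;> by_cases hc : ∃ a, F.Adj a c ∧ φ a = ι xl
        · rw [htau_sp φ b hb, htau_sp φ c hc] at hbc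
          exact e2 (refl_injective hι hbc)
        · exact absurd hbc (mixed b c hb hc)
        · exact absurd hbc.symm (mixed c b hc hb)
        · rw [htau_nsp φ b hb, htau_nsp φ c hc] at hbc
          exact e2 (Equiv.injective _ hbc)
      · have aux1 : ∀ b c, F.Adj b c → φ b = ι xl →
            H.Adj (tau F ι x₀ xl φ b) (tau F ι x₀ xl φ c) := by
          intro b c hbc hb
          have hc : ∃ a, F.Adj a c ∧ φ a = ι xl := ⟨b, hbc, hb⟩
          have hb' : ¬ ∃ a, F.Adj a b ∧ φ a = ι xl := by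
            rintro ⟨a, ha, ha2⟩
            exact ha.ne (e2 (ha2.trans hb.symm))
          rw [htau_nsp φ b hb', htau_sp φ c hc, hb, Equiv.swap_apply_right, ← hreflxl]
          apply hB.refl_adj'
          rw [← hb]
          exact e3 b c hbc
        have aux2 : ∀ b c, F.Adj b c → φ b = ι x₀ → φ c ≠ ι xl →
            H.Adj (tau F ι x₀ xl φ b) (tau F ι x₀ xl φ c) := by
          intro b c hbc hb hc
          have hbt : b = t := e2 (hb.trans e4.symm)
          subst hbt
          have hcs : c = s := hm b c s hbc hts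
          subst hcs
          rw [htau_nsp φ b ht, htau_nsp φ c hs, hb, e5, Equiv.swap_apply_left,
            Equiv.swap_apply_of_ne_of_ne (hB.ny _).symm (hB.ny _).symm]
          exact hB.top _
        intro b c hbc
        show H.Adj (tau F ι x₀ xl φ b) (tau F ι x₀ xl φ c)
        by_cases hb : φ b = ι xl
        · exact aux1 b c hbc hb
        by_cases hc : φ c = ι xl
        · exact (aux1 c b hbc.symm hc).symm
        by_cases hb0 : φ b = ι x₀
        · exact aux2 b c hbc hb0 hc
        by_cases hc0 : φ c = ι x₀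
        · exact (aux2 c b hbc.symm hc0 hb).symm
        have hb' : ¬ ∃ a, F.Adj a b ∧ φ a = ι xl := by
          rintro ⟨a, ha, ha2⟩
          rw [hm b a c ha.symm hbc] at ha2
          exact hc ha2
        have hc' : ¬ ∃ a, F.Adj a c ∧ φ a = ι xl := by
          rintro ⟨a, ha, ha2⟩
          rw [hm c a b ha.symm hbc.symm] at ha2
          exact hb ha2
        rw [htau_nsp φ b hb', htau_nsp φ c hc', Equiv.swap_apply_of_ne_of_ne hb0 hb,
          Equiv.swap_apply_of_ne_of_ne hc0 hc]
        exact e3 b c hbc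
      · show tau F ι x₀ xl φ t = ι xl
        rw [htau_nsp φ t ht, e4, Equiv.swap_apply_left]
      · show tau F ι x₀ xl φ s = y
        rw [htau_nsp φ s hs, e5,
          Equiv.swap_apply_of_ne_of_ne (hB.ny _).symm (hB.ny _).symm]
      · rw [hGain, mem_filter]
        rintro ⟨_, r', hr', h3⟩
        have h4 : φ r' = ι xl := (hx0iff φ hφ r').1 h3
        have h5 := e3 r r' hr'
        rw [e1, h4] at h5
        exact hxnl h5
    · intro φ hφ φ' hφ' he
      rw [mem_coe] at hφ hφ'
      have he' : ∀ b, tau F ι x₀ xl φ b = tau F ι x₀ xl φ' b := fun b => congrFun he b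
      have hiff : ∀ a, φ a = ι xl ↔ φ' a = ι xl := by
        intro a
        rw [← hx0iff φ hφ a, ← hx0iff φ' hφ' a, he' a]
      funext b
      have h3 := he' b
      by_cases hb : ∃ a, F.Adj a b ∧ φ a = ι xl
      · have hb' : ∃ a, F.Adj a b ∧ φ' a = ι xl := by
          obtain ⟨a, ha, ha2⟩ := hb
          exact ⟨a, ha, (hiff a).1 ha2⟩
        rw [htau_sp φ b hb, htau_sp φ' b hb'] at h3
        exact refl_injective hι h3
      · have hb' : ¬ ∃ a, F.Adj a b ∧ φ' a = ι xl := by
          rintro ⟨a, ha, ha2⟩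
          exact hb ⟨a, ha, (hiff a).2 ha2⟩
        rw [htau_nsp φ b hb, htau_nsp φ' b hb'] at h3
        exact Equiv.injective _ h3
  have e1 : A.card = (A \ Exc F H r (ι x) y t ι x₀ xl).card + (Exc F H r (ι x) y t ι x₀ xl).card :=
    (card_sdiff_add_card_eq_card hExc).symm
  have e2 : A'.card = (A' \ Gain).card + Gain.card := by
    rw [card_sdiff_add_card_eq_card (filter_subset _ _)]
  omega

lemma SBlock.card_Exc_le (hB : SBlock H y R ι) (F : SimpleGraph V)
    (hm : ∀ a b c, F.Adj a b → F.Adj a c → b = c) (r : V) (x x₀ xl : Fin (2 * R))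
    (hx0 : (x : ℕ) ≠ 0) (hxR : (x : ℕ) < R) (h0 : (x₀ : ℕ) = 0) (hxl : (xl : ℕ) = 2 * R - 1)
    (t : V) :
    Fintype.card W * (Exc F H r (ι x) y t ι x₀ xl).card ≤
      Fintype.card V ^ 4 * Fintype.card W ^ (Fintype.card V - 4) := by
  have hι := hB.inj
  have hne0 : ι x ≠ ι x₀ := fun h => by have := congrArg Fin.val (hι h); omega
  have hnel : ι x ≠ ι xl := fun h => by have := congrArg Fin.val (hι h); omega
  have h0l : ι x₀ ≠ ι xl := fun h => by have := congrArg Fin.val (hι h); omega
  have hxnl : ¬ H.Adj (ι x) (ι xl) := by rw [hB.adj]; rintro ⟨_, _, h⟩; omega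
  have h1 : Exc F H r (ι x) y t ι x₀ xl ⊆ (univ : Finset (V × V × V × V)).biUnion fun p =>
      (Exc F H r (ι x) y t ι x₀ xl).filter fun φ =>
        (F.Adj t p.1 ∧ φ p.1 = y) ∧ F.Adj p.2.1 p.2.2.1 ∧ φ p.2.1 = ι xl ∧
          φ p.2.2.2 = refl ι (φ p.2.2.1) := by
    intro φ hφ
    have hφ' := hφ
    rw [Exc, mem_filter, UseAt, mem_filter] at hφ'
    obtain ⟨⟨_, _, s, hts, hs⟩, a, a', b, hab, hx, he⟩ := hφ'
    simp only [mem_biUnion, mem_univ, true_and, mem_filter]
    exact ⟨(s, a, a', b), hφ, ⟨hts, hs⟩, hab, hx, he⟩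
  have h2 : ∀ p : V × V × V × V, Fintype.card W * ((Exc F H r (ι x) y t ι x₀ xl).filter fun φ =>
        (F.Adj t p.1 ∧ φ p.1 = y) ∧ F.Adj p.2.1 p.2.2.1 ∧ φ p.2.1 = ι xl ∧
          φ p.2.2.2 = refl ι (φ p.2.2.1)).card ≤
      Fintype.card W ^ (Fintype.card V - 4) := by
    rintro ⟨s, a, a', b⟩
    simp only
    set A := (Exc F H r (ι x) y t ι x₀ xl).filter fun φ =>
        (F.Adj t s ∧ φ s = y) ∧ F.Adj a a' ∧ φ a = ι xl ∧ φ b = refl ι (φ a') with hA
    by_cases hne : A = ∅
    · rw [hne]; simp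
    have hmem : ∀ φ ∈ A, φ r = ι x ∧ φ t = ι x₀ ∧ φ s = y ∧ φ a = ι xl ∧
        φ b = refl ι (φ a') ∧ Function.Injective φ ∧ F.Adj t s ∧ F.Adj a a' ∧
        ∀ c d, F.Adj c d → H.Adj (φ c) (φ d) := by
      intro φ hφ
      rw [hA, mem_filter, Exc, mem_filter, UseAt, mem_filter, mem_Emb] at hφ
      obtain ⟨⟨⟨⟨e1, e2, e3⟩, e4, _⟩, _⟩, ⟨e5, e6⟩, e7, e8, e9⟩ := hφ
      exact ⟨e1, e4, e6, e8, e9, e2, e5, e7, e3⟩
    obtain ⟨φ₀, hφ₀⟩ := Finset.nonempty_iff_ne_empty.2 hne
    obtain ⟨e1, e2, e3, e4, e5, e6, hts, haa, e7⟩ := hmem φ₀ hφ₀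
    have hrt : r ≠ t := by rintro rfl; rw [e1] at e2; exact hne0 e2
    have hrs : r ≠ s := by rintro rfl; rw [e1] at e3; exact hB.ny _ e3
    have hts' : t ≠ s := hts.ne
    have har : a ≠ r := by rintro rfl; rw [e4] at e1; exact hnel e1.symm
    have hat : a ≠ t := by rintro rfl; rw [e4] at e2; exact h0l e2.symm
    have has : a ≠ s := by rintro rfl; rw [e4] at e3; exact hB.ny _ e3
    have ha'a : a' ≠ a := haa.ne'
    have ha'r : a' ≠ r := by
      rintro rfl
      have := e7 _ _ haa
      rw [e4, e1] at this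
      exact hxnl this.symm
    have ha't : a' ≠ t := by
      rintro rfl
      exact has (hm a' a s haa.symm hts)
    have ha's : a' ≠ s := by
      rintro rfl
      exact hat (hm a' a t haa.symm hts.symm)
    have hblock : ∃ z : Fin (2 * R), ι z = φ₀ a' := by
      have h3 := e7 _ _ haa
      rw [e4] at h3
      rcases hB.out xl _ h3 with h4 | h4
      · exact absurd (e6 (h4.trans e3.symm)) ha's
      · exact h4
    have hba' : b ≠ a' := by
      rintro rfl
      obtain ⟨z, hz⟩ := hblock
      rw [← hz, refl_ι hι] at e5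
      have h3 := congrArg Fin.val (hι e5)
      have h4 := Fin.val_rev z
      have h5 := z.2
      omega
    have hcard4 : ({a, r, t, s} : Finset V).card = 4 := by
      rw [card_insert_of_notMem (by simp [har, hat, has]),
        card_eq_three.2 ⟨r, t, s, hrt, hrs, hts', rfl⟩]
    have hcard : ({a', a, r, t, s} : Finset V).card = 5 := by
      rw [card_insert_of_notMem (by simp [ha'a, ha'r, ha't, ha's]), hcard4]
    have hle : A.card ≤ Fintype.card W ^ (({a', a, r, t, s} : Finset V)ᶜ).card := by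
      refine card_le_of_det A _ ?_
      intro φ hφ φ' hφ' he
      obtain ⟨f1, f2, f3, f4, f5, f6, _, _, _⟩ := hmem φ hφ
      obtain ⟨g1, g2, g3, g4, g5, g6, _, _, _⟩ := hmem φ' hφ'
      have hb : φ b = φ' b := by
        by_cases hb : b ∈ ({a', a, r, t, s} : Finset V)
        · simp only [mem_insert, mem_singleton] at hb
          rcases hb with h | h | h | h | h
          · exact absurd h hba'
          · rw [h, f4, g4]
          · rw [h, f1, g1]
          · rw [h, f2, g2]
          · rw [h, f3, g3]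
        · exact he b (by rwa [mem_compl])
      have ha' : φ a' = φ' a' := by
        have h3 : refl ι (φ b) = refl ι (φ' b) := by rw [hb]
        rwa [f5, g5, refl_refl hι, refl_refl hι] at h3
      funext c
      by_cases hc : c ∈ ({a', a, r, t, s} : Finset V)
      · simp only [mem_insert, mem_singleton] at hc
        rcases hc with rfl | rfl | rfl | rfl | rfl
        · exact ha'
        · rw [f4, g4]
        · rw [f1, g1]
        · rw [f2, g2]
        · rw [f3, g3]
      · exact he c (by rwa [mem_compl])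
    have h5 := card_le_univ ({a', a, r, t, s} : Finset V)
    rw [card_compl, hcard] at hle
    rw [hcard] at h5
    calc Fintype.card W * A.card ≤ Fintype.card W * Fintype.card W ^ (Fintype.card V - 5) :=
          Nat.mul_le_mul_left _ hle
      _ = Fintype.card W ^ (Fintype.card V - 4) := by
          rw [← pow_succ']; congr 1; omega
  calc Fintype.card W * (Exc F H r (ι x) y t ι x₀ xl).card
      ≤ Fintype.card W * ∑ p : V × V × V × V,
        ((Exc F H r (ι x) y t ι x₀ xl).filter fun φ =>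
        (F.Adj t p.1 ∧ φ p.1 = y) ∧ F.Adj p.2.1 p.2.2.1 ∧ φ p.2.1 = ι xl ∧
          φ p.2.2.2 = refl ι (φ p.2.2.1)).card :=
        Nat.mul_le_mul_left _ ((card_le_card h1).trans card_biUnion_le)
    _ ≤ ∑ p : V × V × V × V, Fintype.card W ^ (Fintype.card V - 4) := by
        rw [Finset.mul_sum]; exact Finset.sum_le_sum fun p _ => h2 p
    _ = _ := by simp [pow_succ, mul_assoc]

end Pool.Agent.Q274.FI
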