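import Pool.Agent.Q274.FI.UMatch

/-!
# Comparison of the two ends of a block for all graphs
-/

set_option autoImplicit false

open Finset

namespace Pool.Agent.Q274.FI

open scoped Classical

variable {V W : Type} [Fintype V] [Fintype W]

variable {H : SimpleGraph W} {y : W} {R : ℕ} {ι : Fin (2 * R) → W}

lemma SBlock.le_match_gain (hB : SBlock H y R ι) (F : SimpleGraph V)
    (hm : ∀ a b c, F.Adj a b → F.Adj a c → b = c) {r r' t s : V} (h1 : F.Adj r r')
    (h2 : F.Adj t s) (h3 : t ≠ r) (h4 : t ≠ r') (x x₀ xl : Fin (2 * R))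
    (hx0 : (x : ℕ) ≠ 0) (hxR : (x : ℕ) < R) (h0 : (x₀ : ℕ) = 0) (hxl : (xl : ℕ) = 2 * R - 1) :
    (R - 2).descFactorial (Fintype.card V - 4) ≤
      ((UseAt F H r (ι x) (ι xl) y t).filter fun φ => ∃ r', F.Adj r r' ∧ φ r' = ι x₀).card := by
  have hι := hB.inj
  have hne0 : ι x ≠ ι x₀ := fun h => by have := congrArg Fin.val (hι h); omega
  have hnel : ι x ≠ ι xl := fun h => by have := congrArg Fin.val (hι h); omega
  have h0l : ι x₀ ≠ ι xl := fun h => by have := congrArg Fin.val (hι h); omega
  have h5 : s ≠ r := by rintro rfl; exact h4 (hm s t r' h2.symm h1)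
  have h6 : s ≠ r' := by rintro rfl; exact h3 (hm s t r h2.symm h1.symm)
  have h7 : r' ≠ r := h1.ne'
  have h8 : s ≠ t := h2.ne'
  obtain ⟨K, hK1, hK2⟩ := exists_interval (W := W) hι 1 (R - 1) (by omega)
  set g : V → W := fun a => if a = r then ι x else if a = r' then ι x₀ else
    if a = t then ι xl else y with hg
  have gr : g r = ι x := by simp [hg]
  have gr' : g r' = ι x₀ := by simp [hg, h7]
  have gt : g t = ι xl := by simp [hg, h3, h4]
  have gs : g s = y := by simp [hg, h5, h6, h8]
  have hinj : Set.InjOn g (({r, r', t, s} : Finset V) : Set V) := by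
    intro a ha b hb hab
    simp only [coe_insert, coe_singleton, Set.mem_insert_iff, Set.mem_singleton_iff] at ha hb
    rcases ha with rfl | rfl | rfl | rfl <;> rcases hb with rfl | rfl | rfl | rfl <;>
      first
        | rfl
        | (simp only [gr, gr', gt, gs] at hab
           first
             | exact absurd hab hne0
             | exact absurd hab.symm hne0
             | exact absurd hab hnel
             | exact absurd hab.symm hnel
             | exact absurd hab h0l
             | exact absurd hab.symm h0l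
             | exact absurd hab (hB.ny _)
             | exact absurd hab.symm (hB.ny _))
  have hKg : ∀ a ∈ ({r, r', t, s} : Finset V), g a ∉ K.erase (ι x) := by
    intro a ha hmem
    rw [mem_erase] at hmem
    obtain ⟨hm1, hm2⟩ := hmem
    obtain ⟨z, hz1, hz2, hz3⟩ := hK2 _ hm2
    simp only [mem_insert, mem_singleton] at ha
    rcases ha with rfl | rfl | rfl | rfl
    · exact hm1 gr
    · rw [gr'] at hz1
      have := congrArg Fin.val (hι hz1); omega
    · rw [gt] at hz1
      have := congrArg Fin.val (hι hz1); omega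
    · rw [gs] at hz1
      exact hB.ny _ hz1
  have key := le_card_ext ({r, r', t, s} : Finset V) g hinj (K.erase (ι x)) hKg
    ((UseAt F H r (ι x) (ι xl) y t).filter fun φ => ∃ r', F.Adj r r' ∧ φ r' = ι x₀) (by
    intro φ hφ e1 e2
    have fr : φ r = ι x := by rw [e1 r (by simp), gr]
    have fr' : φ r' = ι x₀ := by rw [e1 r' (by simp), gr']
    have ft : φ t = ι xl := by rw [e1 t (by simp), gt]
    have fs : φ s = y := by rw [e1 s (by simp), gs]
    rw [mem_filter, UseAt, mem_filter, mem_Emb]
    refine ⟨⟨⟨fr, hφ, ?_⟩, ft, s, h2, fs⟩, r', h1, fr'⟩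
    have hxx0 : H.Adj (ι x) (ι x₀) := by
      rw [hB.adj]
      refine ⟨fun h => hne0 (by rw [h]), by omega, by omega⟩
    intro a b hab
    by_cases ha : a ∈ ({r, r', t, s} : Finset V)
    · simp only [mem_insert, mem_singleton] at ha
      rcases ha with rfl | rfl | rfl | rfl
      · rw [hm a b r' hab h1, fr, fr']; exact hxx0
      · rw [hm a b r hab h1.symm, fr, fr']; exact hxx0.symm
      · rw [hm a b s hab h2, ft, fs]; exact hB.top _
      · rw [hm a b t hab h2.symm, ft, fs]; exact (hB.top _).symm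
    · have hb : b ∉ ({r, r', t, s} : Finset V) := by
        intro hb
        apply ha
        simp only [mem_insert, mem_singleton] at hb ⊢
        rcases hb with rfl | rfl | rfl | rfl
        · exact Or.inr (Or.inl (hm b a r' hab.symm h1))
        · exact Or.inl (hm b a r hab.symm h1.symm)
        · exact Or.inr (Or.inr (Or.inr (hm b a s hab.symm h2)))
        · exact Or.inr (Or.inr (Or.inl (hm b a t hab.symm h2.symm)))
      obtain ⟨z, hz1, hz2, hz3⟩ := hK2 _ (mem_of_mem_erase (e2 a ha))
      obtain ⟨z', hz1', hz2', hz3'⟩ := hK2 _ (mem_of_mem_erase (e2 b hb))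
      rw [← hz1, ← hz1', hB.adj]
      refine ⟨fun h => hab.ne (hφ ?_), ?_, ?_⟩
      · rw [← hz1, ← hz1', h]
      · omega
      · omega)
  have hcard : ({r, r', t, s} : Finset V).card = 4 := by
    rw [card_insert_of_notMem (by simp [h7.symm, h3.symm, h5.symm]),
      card_eq_three.2 ⟨r', t, s, h4.symm, h6.symm, h8.symm, rfl⟩]
  rw [hcard] at key
  have h9 : R - 2 ≤ (K.erase (ι x)).card := by
    have := Finset.pred_card_le_card_erase (s := K) (a := ι x)
    omega
  exact (Nat.descFactorial_le _ h9).trans key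

/-- Matchings: more copies through the left vertex use the right end of the block. -/
lemma SBlock.sum_match (hB : SBlock H y R ι) (F : SimpleGraph V)
    (hm : ∀ a b c, F.Adj a b → F.Adj a c → b = c) {r₀ r' t₀ s : V} (h1 : F.Adj r₀ r')
    (h2 : F.Adj t₀ s) (h3 : t₀ ≠ r₀) (h4 : t₀ ≠ r') (x x₀ xl : Fin (2 * R))
    (hx0 : (x : ℕ) ≠ 0) (hxR : (x : ℕ) < R) (h0 : (x₀ : ℕ) = 0) (hxl : (xl : ℕ) = 2 * R - 1) :
    Fintype.card W * (∑ r, (Use F H r (ι x) (ι x₀) y).card) +
        Fintype.card W * (R - 2).descFactorial (Fintype.card V - 4) ≤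
      Fintype.card W * (∑ r, (Use F H r (ι x) (ι xl) y).card) +
        Fintype.card V ^ 6 * Fintype.card W ^ (Fintype.card V - 4) := by
  have hrw : ∀ z, ∑ r, (Use F H r (ι x) z y).card =
      ∑ p : V × V, (UseAt F H p.1 (ι x) z y p.2).card := by
    intro z
    rw [Fintype.sum_prod_type]
    exact Finset.sum_congr rfl fun r _ => card_Use_eq F H r (ι x) z y
  rw [hrw, hrw, Finset.mul_sum, Finset.mul_sum]
  have h5 : ∀ p : V × V, Fintype.card W * (UseAt F H p.1 (ι x) (ι x₀) y p.2).card +
      Fintype.card W * ((UseAt F H p.1 (ι x) (ι xl) y p.2).filter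
        fun φ => ∃ r', F.Adj p.1 r' ∧ φ r' = ι x₀).card ≤
      Fintype.card W * (UseAt F H p.1 (ι x) (ι xl) y p.2).card +
        Fintype.card V ^ 4 * Fintype.card W ^ (Fintype.card V - 4) := by
    intro p
    have e1 := Nat.mul_le_mul_left (Fintype.card W)
      (hB.match_le F hm p.1 x x₀ xl hx0 hxR h0 hxl p.2)
    have e2 := hB.card_Exc_le F hm p.1 x x₀ xl hx0 hxR h0 hxl p.2
    rw [Nat.mul_add, Nat.mul_add] at e1
    omega
  have h6 := Finset.sum_le_sum fun (p : V × V) (_ : p ∈ univ) => h5 p
  rw [Finset.sum_add_distrib, Finset.sum_add_distrib, Finset.sum_const, card_univ,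
    Fintype.card_prod, smul_eq_mul] at h6
  have h7 : Fintype.card W * (R - 2).descFactorial (Fintype.card V - 4) ≤
      ∑ p : V × V, Fintype.card W * ((UseAt F H p.1 (ι x) (ι xl) y p.2).filter
        fun φ => ∃ r', F.Adj p.1 r' ∧ φ r' = ι x₀).card := by
    refine le_trans ?_ (Finset.single_le_sum (f := fun p : V × V => Fintype.card W *
      ((UseAt F H p.1 (ι x) (ι xl) y p.2).filter
        fun φ => ∃ r', F.Adj p.1 r' ∧ φ r' = ι x₀).card) (fun _ _ => Nat.zero_le _)
      (mem_univ (r₀, t₀)))
    exact Nat.mul_le_mul_left _ (hB.le_match_gain F hm h1 h2 h3 h4 x x₀ xl hx0 hxR h0 hxl)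
  have h8 : Fintype.card V * Fintype.card V *
      (Fintype.card V ^ 4 * Fintype.card W ^ (Fintype.card V - 4)) =
      Fintype.card V ^ 6 * Fintype.card W ^ (Fintype.card V - 4) := by ring
  rw [h8] at h6
  omega

/-- Other graphs: more copies through the left vertex use the left end of the block. -/
lemma SBlock.sum_good (hB : SBlock H y R ι) (F : SimpleGraph V) {r₀ t₀ s₀ : V}
    (hrt : F.Adj r₀ t₀) (hts : F.Adj t₀ s₀) (hsr : s₀ ≠ r₀)
    (x x₀ xl : Fin (2 * R)) (hx0 : (x : ℕ) ≠ 0) (hxR : (x : ℕ) < R) (h0 : (x₀ : ℕ) = 0)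
    (hxl : (xl : ℕ) = 2 * R - 1) :
    Fintype.card W * (∑ r, (Use F H r (ι x) (ι xl) y).card) +
        Fintype.card W * (R - 2).descFactorial (Fintype.card V - 3) ≤
      Fintype.card W * (∑ r, (Use F H r (ι x) (ι x₀) y).card) +
        Fintype.card V ^ 5 * Fintype.card W ^ (Fintype.card V - 3) := by
  rw [Finset.mul_sum, Finset.mul_sum, ← Finset.add_sum_erase univ _ (mem_univ r₀),
    ← Finset.add_sum_erase univ (fun r => Fintype.card W * (Use F H r (ι x) (ι x₀) y).card)
      (mem_univ r₀)]
  have h1 := hB.Use_cmp_good F hrt hts hsr x x₀ xl hx0 hxR h0 hxl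
  have h2 : ∑ r ∈ univ.erase r₀, Fintype.card W * (Use F H r (ι x) (ι xl) y).card ≤
      ∑ r ∈ univ.erase r₀, (Fintype.card W * (Use F H r (ι x) (ι x₀) y).card +
        Fintype.card V ^ 4 * Fintype.card W ^ (Fintype.card V - 3)) :=
    Finset.sum_le_sum fun r _ => hB.Use_cmp F r x x₀ xl hx0 hxR h0 hxl
  rw [Finset.sum_add_distrib, Finset.sum_const, card_erase_of_mem (mem_univ _), card_univ,
    smul_eq_mul] at h2
  have hpos : 0 < Fintype.card V := Fintype.card_pos_iff.2 ⟨r₀⟩
  have h3 : Fintype.card V ^ 4 * Fintype.card W ^ (Fintype.card V - 3) +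
      (Fintype.card V - 1) * (Fintype.card V ^ 4 * Fintype.card W ^ (Fintype.card V - 3)) =
      Fintype.card V ^ 5 * Fintype.card W ^ (Fintype.card V - 3) := by
    have h4 : ∀ B : ℕ, B + (Fintype.card V - 1) * B = Fintype.card V * B := by
      intro B
      calc B + (Fintype.card V - 1) * B = ((Fintype.card V - 1) + 1) * B := by ring
        _ = Fintype.card V * B := by rw [Nat.sub_add_cancel hpos]
    rw [h4]
    ring
  omega

end Pool.Agent.Q274.FI
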